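import Pool.Agent.H10.CM.PF

set_option autoImplicit false

/-!
# MP_47888e_al, block FIELDS: the statements of the modules

Board table `cmf`. `A : PF X E`, `A.ext : PF X (RatFunc E)`.
-/

open Polynomial

namespace Pool.CM

/-! ### elementary consequences of the axioms -/

/-- `p` is not a unit; nonunits are divisible by `p`; the ring `O` is a valuation ring. -/
def VALUStmt : Prop := ∀ (X : Idx) (E : Type) [Field E] (A : PF X E), A.Ax → ∀ i,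
  (∀ x, x ∈ A.O i → ¬ A.Un i x → A.Dv i 1 x) ∧
  (∀ x y, A.Dv i 1 x → y ∈ A.O i → A.Dv i 1 y → A.Dv i 1 (x + y)) ∧
  (∀ x, A.Dv i 1 x → ¬ A.Un i x) ∧
  (∀ x : E, x ∈ A.O i ∨ x⁻¹ ∈ A.O i) ∧
  (∀ x y, A.Un i x → A.Dv i 1 y → A.Un i (x + y)) ∧
  (∀ x y, A.Un i x → A.Un i y → A.Un i (x * y)) ∧
  (∀ x, A.Un i x → A.Un i (A.phi i x))

/-- closure properties of the sets `t i d` -/
def TCLStmt : Prop := ∀ (X : Idx) (E : Type) [Field E] (A : PF X E), A.Ax → ∀ i,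
  (∀ d x, x ∈ A.t i d → x ∈ A.O i) ∧
  (∀ d e, d ≤ e → A.t i d ⊆ A.t i e) ∧
  (∀ d e x y, x ∈ A.t i d → y ∈ A.t i e → x + y ∈ A.t i (d + e)) ∧
  (∀ d e x y, x ∈ A.t i d → y ∈ A.t i e → x * y ∈ A.t i (d + e)) ∧
  (∀ d x, x ∈ A.t i d → -x ∈ A.t i d) ∧
  (∀ d x, x ∈ A.t i d → A.phi i x ∈ A.t i (X.p i * d)) ∧
  (∀ d j x, x ∈ A.t i d → A.D j x ∈ A.t i (d + d)) ∧
  (∀ d x, x ∈ A.pol i d → x ∈ A.t i d)

/-- fixed elements have bounded degree -/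
def TFXStmt : Prop := ∀ (X : Idx) (E : Type) [Field E] (A : PF X E), A.Ax →
  ∀ x : E, ∃ d : ℕ, X.Ev fun i => x ∈ A.t i d

/-! ### the base -/

/-- the axioms for a number field -/
def BASEStmt : Prop := ∀ (K : Type) [Field K] [NumberField K] (h : EmbStmt), (PF.base K h).Ax

/-! ### one more variable -/

/-- Gauss's lemma -/
def PRMStmt : Prop := ∀ (X : Idx) (E : Type) [Field E] (A : PF X E), A.Ax →
  ∀ i (g h : E[X]), A.Prim i g → A.Prim i h → A.Prim i (g * h)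

/-- description of the Gauss ring; scaling of polynomials -/
def GAUStmt : Prop := ∀ (X : Idx) (E : Type) [Field E] (A : PF X E), A.Ax → ∀ i,
  (∀ x : RatFunc E, x ∈ A.ext.O i ↔ ∃ g h : E[X], A.Int i g ∧ A.Prim i h ∧
    x * algebraMap E[X] (RatFunc E) h = algebraMap E[X] (RatFunc E) g) ∧
  (∀ g : E[X], g ≠ 0 → ∃ k : ℤ, A.Prim i (Polynomial.C ((X.p i : E) ^ k) * g)) ∧
  (∀ g : E[X], A.Prim i g → A.ext.Un i (algebraMap E[X] (RatFunc E) g)) ∧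
  (∀ g : E[X], algebraMap E[X] (RatFunc E) g ∈ A.ext.O i → A.Int i g) ∧
  (∀ (g : E[X]) (M : ℕ), A.ext.Dv i M (algebraMap E[X] (RatFunc E) g) ↔
    ∀ n, A.Dv i M (g.coeff n))

def SCLStmt : Prop := ∀ (X : Idx) (E : Type) [Field E] (A : PF X E), A.Ax →
  (∀ i (x : RatFunc E), x ≠ 0 → ∃ k : ℤ, A.ext.Un i (x * (X.p i : RatFunc E) ^ k)) ∧
  (∀ i, ((X.p i : ℕ) : RatFunc E)⁻¹ ∉ A.ext.O i)

def PHIStmt : Prop := ∀ (X : Idx) (E : Type) [Field E] (A : PF X E), A.Ax →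
  (∀ i x, x ∈ A.ext.O i → A.ext.phi i x ∈ A.ext.O i) ∧
  (∀ i x, x ∈ A.ext.O i → A.ext.Dv i 1 (A.ext.phi i x - x ^ X.p i))

def UNIStmt : Prop := ∀ (X : Idx) (E : Type) [Field E] (A : PF X E), A.Ax →
  ∀ x : RatFunc E, x ≠ 0 → X.Ev fun i => A.ext.Un i x

def HGTStmt : Prop := ∀ (X : Idx) (E : Type) [Field E] (A : PF X E), A.Ax →
  ∀ χ : (RatFunc E)[X], χ ≠ 0 → ∃ c : ℕ, ∀ C : ℕ, X.Ev fun i => ∀ y : ℤ,
    |y| ≤ (C : ℤ) * X.p i → χ.eval (y : RatFunc E) ≠ 0 →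
      (X.p i : RatFunc E) ^ c * (χ.eval (y : RatFunc E))⁻¹ ∈ A.ext.O i

def POLStmt : Prop := ∀ (X : Idx) (E : Type) [Field E] (A : PF X E), A.Ax →
  (∀ i d x, x ∈ A.ext.pol i d → x ∈ A.ext.O i) ∧
  (∀ i d e, d ≤ e → A.ext.pol i d ≤ A.ext.pol i e) ∧
  (∀ i, (1 : RatFunc E) ∈ A.ext.pol i 0) ∧
  (∀ i (n : ℕ), ¬ X.p i ∣ n → ((n : RatFunc E))⁻¹ ∈ A.ext.pol i 0) ∧
  (∀ i d e x y, x ∈ A.ext.pol i d → y ∈ A.ext.pol i e → x * y ∈ A.ext.pol i (d + e)) ∧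
  (∀ i d x, x ∈ A.ext.pol i d → A.ext.phi i x ∈ A.ext.pol i (X.p i * d))

def SATStmt : Prop := ∀ (X : Idx) (E : Type) [Field E] (A : PF X E), A.Ax →
  ∀ i d x, x ∈ A.ext.O i → (X.p i : RatFunc E) * x ∈ A.ext.pol i d → x ∈ A.ext.pol i d

def DENStmt : Prop := ∀ (X : Idx) (E : Type) [Field E] (A : PF X E), A.Ax →
  (∀ i d x, x ∈ A.ext.den i d → x ∈ A.ext.pol i d) ∧
  (∀ i d x, x ∈ A.ext.den i d → A.ext.Un i x) ∧
  (∀ i d e, d ≤ e → A.ext.den i d ⊆ A.ext.den i e) ∧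
  (∀ i, (1 : RatFunc E) ∈ A.ext.den i 0) ∧
  (∀ i d e x y, x ∈ A.ext.den i d → y ∈ A.ext.den i e → x * y ∈ A.ext.den i (d + e)) ∧
  (∀ i d x, x ∈ A.ext.den i d → A.ext.phi i x ∈ A.ext.den i (X.p i * d))

def FIXStmt : Prop := ∀ (X : Idx) (E : Type) [Field E] (A : PF X E), A.Ax →
  ∀ x : RatFunc E, x ≠ 0 → ∃ d : ℕ, X.Ev fun i =>
    ∃ g ∈ A.ext.den i d, ∃ h ∈ A.ext.den i d, x * h = g

def DERStmt : Prop := ∀ (X : Idx) (E : Type) [Field E] (A : PF X E), A.Ax →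
  (∀ i j x, x ∈ A.ext.O i → A.ext.D j x ∈ A.ext.O i) ∧
  (∀ i j d x, x ∈ A.ext.pol i d → A.ext.D j x ∈ A.ext.pol i d) ∧
  (∀ i j x, A.ext.D j (A.ext.phi i x) = (X.p i : RatFunc E) * A.ext.phi i (A.ext.D j x)) ∧
  (∀ j k x, A.ext.D j (A.ext.D k x) = A.ext.D k (A.ext.D j x))

/-- the axioms pass to `E(x)` -/
def EXTStmt : Prop := ∀ (X : Idx) (E : Type) [Field E] (A : PF X E), A.Ax → A.ext.Ax

/-! ### expansions -/

/-- expansion and Frobenius -/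
def XPHStmt : Prop := ∀ (X : Idx) (E : Type) [Field E] (A : PF X E) (i : X.I) (x : RatFunc E)
  (k : ℤ), ((X.p i : ℤ) ∣ k → (ex E (A.ext.phi i x)).coeff k =
      A.phi i ((ex E x).coeff (k / X.p i))) ∧
    (¬ (X.p i : ℤ) ∣ k → (ex E (A.ext.phi i x)).coeff k = 0)

/-- expansion and derivations -/
def XDEStmt : Prop := ∀ (X : Idx) (E : Type) [Field E] (A : PF X E) (x : RatFunc E) (k : ℤ),
  (ex E (A.ext.D none x)).coeff k = (k : E) * (ex E x).coeff k ∧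
  ∀ j : A.J, (ex E (A.ext.D (some j) x)).coeff k = A.D j ((ex E x).coeff k)

/-- elements of `t i d` have integral expansion and pole order at most `d` -/
def XTStmt : Prop := ∀ (X : Idx) (E : Type) [Field E] (A : PF X E), A.Ax →
  ∀ i d x, x ∈ A.ext.t i d → (∀ k, (ex E x).coeff k ∈ A.O i) ∧
    (∀ k : ℤ, k < -(d : ℤ) → (ex E x).coeff k = 0)

/-- congruences in the Gauss ring and in the Laurent series ring agree on `t i d` -/
def XCGStmt : Prop := ∀ (X : Idx) (E : Type) [Field E] (A : PF X E), A.Ax →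
  ∀ i d x M, x ∈ A.ext.t i d → (A.ext.Dv i M x ↔ ∀ k, A.Dv i M ((ex E x).coeff k))

/-- extraction: the constant coefficient of an element of `t i d` which is regular modulo
`p ^ M` is congruent to an element of `t i d` -/
def XTEStmt : Prop := ∀ (X : Idx) (E : Type) [Field E] (A : PF X E), A.Ax →
  ∀ i d x M, x ∈ A.ext.t i d → (∀ k : ℤ, k < 0 → A.Dv i M ((ex E x).coeff k)) →
    ∃ y ∈ A.t i d, A.Dv i M ((ex E x).coeff 0 - y)

end Pool.CM
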