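import Mathlib
import Pool.Agent.H4.Cube.PartA

set_option autoImplicit false

/-!
# MP_47888e_al, block R, part 2: embeddings of number fields in `ℚ_[p]`, units, heights
-/

namespace Pool.CM

open Polynomial

/-- A nonzero integer is divided by `p ^ k`, hence its `p`-adic norm is at least `1 / |z|`. -/
theorem one_div_abs_le_padic_norm (p : ℕ) [hp : Fact p.Prime] (z : ℤ) (hz : z ≠ 0) :
    1 / |(z : ℝ)| ≤ ‖(z : ℚ_[p])‖ := by
  have h1 : (0 : ℝ) < |(z : ℝ)| := by positivity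
  have hne : (z : ℚ_[p]) ≠ 0 := by exact_mod_cast hz
  obtain ⟨n, hn⟩ := Padic.padicNormE.image hne
  have hp0 : (0 : ℝ) < (p : ℝ) := by exact_mod_cast hp.1.pos
  have hle : ‖(z : ℚ_[p])‖ ≤ 1 := Padic.norm_int_le_one z
  rw [hn] at hle ⊢
  have hn0 : 0 ≤ n := by
    by_contra hneg
    push Not at hneg
    have h2 : (1 : ℝ) < (p : ℝ) ^ (-n) := by
      apply one_lt_zpow₀ _ (by omega)
      exact_mod_cast hp.1.one_lt
    push_cast at hle
    linarith
  obtain ⟨k, rfl⟩ := Int.eq_ofNat_of_zero_le hn0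
  have hdvd : ((p : ℤ) ^ k) ∣ z := by
    rw [← Padic.norm_int_le_pow_iff_dvd, hn]
    push_cast
    exact le_rfl
  have h3 : ((p : ℤ) ^ k) ≤ |z| := Int.le_of_dvd (abs_pos.2 hz) ((dvd_abs _ _).2 hdvd)
  have h4 : ((p : ℝ) ^ k) ≤ |(z : ℝ)| := by exact_mod_cast h3
  push_cast
  rw [zpow_neg, zpow_natCast, one_div]
  exact inv_anti₀ (by positivity) h4

/-- Integral elements go to `p`-adic integers. -/
theorem norm_le_one_of_isIntegral (p : ℕ) [hp : Fact p.Prime] (y : ℚ_[p]) (hy : IsIntegral ℤ y) :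
    ‖y‖ ≤ 1 := by
  have h1 : IsIntegral ℤ_[p] y := hy.tower_top
  obtain ⟨z, hz⟩ := IsIntegrallyClosed.isIntegral_iff.1 h1
  rw [← hz]
  exact z.2

theorem norm_int_eq_one (p : ℕ) [hp : Fact p.Prime] (z : ℤ) (hz : z ≠ 0) (hlt : z.natAbs < p) :
    ‖(z : ℚ_[p])‖ = 1 := by
  have hle : ‖(z : ℚ_[p])‖ ≤ 1 := Padic.norm_int_le_one z
  refine le_antisymm hle ?_
  by_contra hcon
  push Not at hcon
  have hcon : ‖((z : ℤ) : ℤ_[p])‖ < 1 := by
    have e : ‖((z : ℤ) : ℤ_[p])‖ = ‖(z : ℚ_[p])‖ := by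
      rw [← PadicInt.padic_norm_e_of_padicInt]
      congr 1
    rw [e]; exact hcon
  rw [PadicInt.norm_int_lt_one_iff_dvd] at hcon
  have h1 : p ∣ z.natAbs := Int.natCast_dvd.1 hcon
  have h2 := Nat.le_of_dvd (Int.natAbs_pos.2 hz) h1
  omega

/-- R3a: every element of a number field is `p`-integral for almost all `p`. -/
theorem norm_le_one_eventually (K : Type*) [Field K] [NumberField K] (x : K) :
    ∃ B : ℕ, ∀ p : ℕ, B < p → ∀ [Fact p.Prime] (ι : K →+* ℚ_[p]), ‖ι x‖ ≤ 1 := by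
  have halg : IsAlgebraic ℤ x := by
    have : IsAlgebraic ℚ x := Algebra.IsAlgebraic.isAlgebraic _
    exact (IsFractionRing.isAlgebraic_iff ℤ ℚ K).2 this
  obtain ⟨m, hm, hmx⟩ := halg.exists_integral_multiple
  refine ⟨m.natAbs, fun p hp hfact ι => ?_⟩
  have h1 : IsIntegral ℤ (ι (m • x)) := hmx.map ι.toIntAlgHom
  have h2 := norm_le_one_of_isIntegral p _ h1
  rw [zsmul_eq_mul, map_mul, map_intCast, norm_mul, norm_int_eq_one p m hm hp, one_mul] at h2
  exact h2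

/-- R3: a nonzero element of a number field is a `p`-adic unit for almost all `p`. -/
theorem norm_eq_one_eventually (K : Type*) [Field K] [NumberField K] (x : K) (hx : x ≠ 0) :
    ∃ B : ℕ, ∀ p : ℕ, B < p → ∀ [Fact p.Prime] (ι : K →+* ℚ_[p]), ‖ι x‖ = 1 := by
  obtain ⟨B1, h1⟩ := norm_le_one_eventually K x
  obtain ⟨B2, h2⟩ := norm_le_one_eventually K x⁻¹
  refine ⟨max B1 B2, fun p hp hfact ι => ?_⟩
  have h3 := h1 p (lt_of_le_of_lt (le_max_left _ _) hp) ι
  have h4 := h2 p (lt_of_le_of_lt (le_max_right _ _) hp) ι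
  have h5 : ‖ι x‖ * ‖ι x⁻¹‖ = 1 := by
    rw [← norm_mul, ← map_mul, mul_inv_cancel₀ hx, map_one, norm_one]
  have h6 : 0 ≤ ‖ι x‖ := norm_nonneg _
  nlinarith [norm_nonneg (ι x⁻¹)]

/-- R2: a number field embeds in `ℚ_[p]` for arbitrarily large `p`. -/
theorem exists_embedding (K : Type*) [Field K] [NumberField K] (B : ℕ) :
    ∃ p : ℕ, B < p ∧ ∃ _ : Fact p.Prime, Nonempty (K →+* ℚ_[p]) := by
  classical
  obtain ⟨m, hm0, hm⟩ : ∃ m : ℤ, m ≠ 0 ∧
      IsIntegral ℤ (m • (Field.powerBasisOfFiniteOfSeparable ℚ K).gen) := by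
    have halg : IsAlgebraic ℤ (Field.powerBasisOfFiniteOfSeparable ℚ K).gen := by
      have : IsAlgebraic ℚ (Field.powerBasisOfFiniteOfSeparable ℚ K).gen :=
        Algebra.IsAlgebraic.isAlgebraic _
      exact (IsFractionRing.isAlgebraic_iff ℤ ℚ K).2 this
    obtain ⟨y, hy, hy'⟩ := halg.exists_integral_multiple
    exact ⟨y, hy, hy'⟩
  set g0 := (Field.powerBasisOfFiniteOfSeparable ℚ K).gen with hg0
  set θ : K := m • g0 with hθ
  have hmK : (m : K) ≠ 0 := by exact_mod_cast hm0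
  have hdeg : 0 < (minpoly ℤ θ).natDegree := minpoly.natDegree_pos hm
  -- Bezout
  have hq : minpoly ℚ θ = (minpoly ℤ θ).map (algebraMap ℤ ℚ) :=
    minpoly.isIntegrallyClosed_eq_field_fractions' ℚ hm
  have hsep : (minpoly ℚ θ).Separable := (minpoly.irreducible
    (Algebra.IsSeparable.isIntegral ℚ θ)).separable
  obtain ⟨u, v, huv⟩ := hsep
  obtain ⟨b, hb, hbu⟩ := IsLocalization.integerNormalization_spec (nonZeroDivisors ℤ) u
  obtain ⟨c, hc, hcv⟩ := IsLocalization.integerNormalization_spec (nonZeroDivisors ℤ) v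
  set U := IsLocalization.integerNormalization (nonZeroDivisors ℤ) u with hU
  set V := IsLocalization.integerNormalization (nonZeroDivisors ℤ) v with hV
  have hU' : U.map (algebraMap ℤ ℚ) = C (b : ℚ) * u := by
    rw [hbu, zsmul_eq_mul]; simp
  have hV' : V.map (algebraMap ℤ ℚ) = C (c : ℚ) * v := by
    rw [hcv, zsmul_eq_mul]; simp
  have hb0 : b ≠ 0 := nonZeroDivisors.ne_zero hb
  have hc0 : c ≠ 0 := nonZeroDivisors.ne_zero hc
  have hbez : C c * U * minpoly ℤ θ + C b * V * derivative (minpoly ℤ θ) = C (b * c) := by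
    apply Polynomial.map_injective (algebraMap ℤ ℚ) (algebraMap ℤ ℚ).injective_int
    simp only [Polynomial.map_add, Polynomial.map_mul, map_C, hU', hV', ← derivative_map, ← hq]
    have h1 : u * minpoly ℚ θ + v * derivative (minpoly ℚ θ) = 1 := huv
    simp only [algebraMap_int_eq, eq_intCast, Int.cast_mul, C_mul]
    linear_combination (C (b : ℚ) * C (c : ℚ)) * h1
  obtain ⟨p, hp, hpN, a, ha⟩ := Pool.Agent.H4.Cube.exists_prime_root (minpoly ℤ θ) hdeg
    (max B (b * c).natAbs)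
  have hfact : Fact p.Prime := ⟨hp⟩
  refine ⟨p, lt_of_le_of_lt (le_max_left _ _) hpN, hfact, ?_⟩
  have hbc : ¬ (p : ℤ) ∣ b * c := by
    intro h
    have h1 : p ∣ (b * c).natAbs := Int.natCast_dvd.1 h
    have h2 := Nat.le_of_dvd (Int.natAbs_pos.2 (mul_ne_zero hb0 hc0)) h1
    have := le_max_right B (b * c).natAbs
    omega
  have hder : ¬ (p : ℤ) ∣ (derivative (minpoly ℤ θ)).eval a := by
    intro h
    apply hbc
    have h1 := congrArg (Polynomial.eval a) hbez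
    simp only [eval_add, eval_mul, eval_C] at h1
    rw [← h1]
    exact dvd_add (Dvd.dvd.mul_left ha _) (Dvd.dvd.mul_left h _)
  have hnorm : ‖(minpoly ℤ θ).aeval ((a : ℤ) : ℤ_[p])‖ <
      ‖(derivative (minpoly ℤ θ)).aeval ((a : ℤ) : ℤ_[p])‖ ^ 2 := by
    have e1 : (minpoly ℤ θ).aeval ((a : ℤ) : ℤ_[p]) = (((minpoly ℤ θ).eval a : ℤ) : ℤ_[p]) := by
      simp [aeval_def, eval₂_eq_eval_map, eval_intCast_map]
    have e2 : (derivative (minpoly ℤ θ)).aeval ((a : ℤ) : ℤ_[p]) =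
        (((derivative (minpoly ℤ θ)).eval a : ℤ) : ℤ_[p]) := by
      simp [aeval_def, eval₂_eq_eval_map, eval_intCast_map]
    rw [e1, e2]
    have h1 : ‖(((derivative (minpoly ℤ θ)).eval a : ℤ) : ℤ_[p])‖ = 1 := by
      refine le_antisymm (PadicInt.norm_le_one _) ?_
      by_contra hcon
      push Not at hcon
      exact hder (PadicInt.norm_int_lt_one_iff_dvd _ |>.1 hcon)
    rw [h1, one_pow]
    exact PadicInt.norm_int_lt_one_iff_dvd _ |>.2 ha
  obtain ⟨z, hz, -⟩ := hensels_lemma hnorm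
  -- the embedding
  have hzQ : aeval ((z : ℤ_[p]) : ℚ_[p]) (minpoly ℤ θ) = 0 := by
    have := congrArg (algebraMap ℤ_[p] ℚ_[p]) hz
    rw [← aeval_algebraMap_apply, map_zero] at this
    exact this
  have hroot : aeval ((m : ℚ_[p])⁻¹ * ((z : ℤ_[p]) : ℚ_[p])) (minpoly ℚ g0) = 0 := by
    have hg : g0 = (m : K)⁻¹ * θ := by
      rw [hθ, zsmul_eq_mul, ← mul_assoc, inv_mul_cancel₀ hmK, one_mul]
    -- the polynomial `minpoly ℚ g0 (m⁻¹ X)` is divisible by `minpoly ℚ θ`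
    have hdvd : minpoly ℚ θ ∣ (minpoly ℚ g0).comp (C ((m : ℚ)⁻¹) * X) := by
      apply minpoly.dvd
      rw [aeval_comp]
      simp only [map_mul, aeval_C, aeval_X, map_inv₀, map_intCast]
      rw [← hg]
      exact minpoly.aeval ℚ g0
    obtain ⟨w, hw⟩ := hdvd
    have h2 := congrArg (aeval ((z : ℤ_[p]) : ℚ_[p])) hw
    rw [aeval_comp, map_mul] at h2
    simp only [map_mul, aeval_C, aeval_X, map_inv₀, map_intCast] at h2
    rw [h2, hq, aeval_map_algebraMap, hzQ, zero_mul]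
  exact ⟨((Field.powerBasisOfFiniteOfSeparable ℚ K).lift _ hroot).toRingHom⟩

/-- The lower bound for one nonzero integral element: `‖ι α‖ ≥ 1 / (bound)`. -/
theorem norm_ge_of_isIntegral (K : Type*) [Field K] [NumberField K] (α : K) (hα : IsIntegral ℤ α)
    (h0 : α ≠ 0) (A : ℝ) (hA : ∀ φ : K →+* ℂ, ‖φ α‖ ≤ A) (p : ℕ) [Fact p.Prime]
    (ι : K →+* ℚ_[p]) :
    1 / (max A 1 ^ Module.finrank ℚ K *
      ((Module.finrank ℚ K).choose (Module.finrank ℚ K / 2) : ℕ)) ≤ ‖ι α‖ := by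
  set P := minpoly ℤ α with hP
  have hq : minpoly ℚ α = P.map (algebraMap ℤ ℚ) :=
    minpoly.isIntegrallyClosed_eq_field_fractions' ℚ hα
  have hP0 : P.coeff 0 ≠ 0 := by
    intro hz
    apply minpoly.coeff_zero_ne_zero (A := ℚ) hα.tower_top h0
    rw [hq, coeff_map, hz, map_zero]
  have hbd := NumberField.Embeddings.coeff_bdd_of_norm_le (A := ℂ) hA 0
  rw [hq, coeff_map, eq_intCast, Int.norm_cast_rat, Int.norm_eq_abs] at hbd
  -- `α q(α) = - c₀`
  have hdiv : X * divX P + C (P.coeff 0) = P := by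
    rw [mul_comm]; exact divX_mul_X_add P
  have h1 : α * aeval α (divX P) = -((P.coeff 0 : ℤ) : K) := by
    have h2 := congrArg (aeval α) hdiv
    rw [map_add, map_mul, aeval_X, aeval_C, hP, minpoly.aeval, ← hP] at h2
    rw [eq_neg_iff_add_eq_zero]
    simpa using h2
  have h3 : ‖ι α‖ * ‖ι (aeval α (divX P))‖ = ‖((P.coeff 0 : ℤ) : ℚ_[p])‖ := by
    rw [← norm_mul, ← map_mul, h1, map_neg, map_intCast, norm_neg]
  have h4 : ‖ι (aeval α (divX P))‖ ≤ 1 := by
    apply norm_le_one_of_isIntegral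
    have : IsIntegral ℤ (aeval α (divX P)) := by
      have h5 : aeval α (divX P) ∈ Algebra.adjoin ℤ {α} := aeval_mem_adjoin_singleton ℤ α
      exact IsIntegral.of_mem_of_fg _ (IsIntegral.fg_adjoin_singleton hα) _ h5
    exact this.map ι.toIntAlgHom
  have h6 := one_div_abs_le_padic_norm p (P.coeff 0) hP0
  have h7 : ‖((P.coeff 0 : ℤ) : ℚ_[p])‖ ≤ ‖ι α‖ := by
    rw [← h3]
    nlinarith [norm_nonneg (ι α)]
  refine le_trans ?_ (h6.trans h7)
  have h8 : (0 : ℝ) < |((P.coeff 0 : ℤ) : ℝ)| := by positivity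
  exact one_div_le_one_div_of_le h8 hbd

/-- R4 (height property): values of a fixed polynomial at integers of size `O(p)` have bounded
`p`-adic valuation as soon as they are nonzero. -/
theorem height_property (K : Type*) [Field K] [NumberField K] (χ : K[X]) :
    ∃ c : ℕ, ∀ C : ℕ, ∃ B : ℕ, ∀ p : ℕ, B < p → ∀ [Fact p.Prime] (ι : K →+* ℚ_[p]) (y : ℤ),
      |y| ≤ C * p → χ.eval (y : K) ≠ 0 → ((p : ℝ) ^ c)⁻¹ ≤ ‖ι (χ.eval (y : K))‖ := by
  classical
  -- clear denominators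
  obtain ⟨D, hD0, hD⟩ : ∃ D : ℤ, D ≠ 0 ∧ ∀ i ∈ χ.support, IsIntegral ℤ ((D : K) * χ.coeff i) := by
    have h1 : ∀ i, ∃ d : ℤ, d ≠ 0 ∧ IsIntegral ℤ (d • χ.coeff i) := by
      intro i
      have halg : IsAlgebraic ℤ (χ.coeff i) := by
        have : IsAlgebraic ℚ (χ.coeff i) := Algebra.IsAlgebraic.isAlgebraic _
        exact (IsFractionRing.isAlgebraic_iff ℤ ℚ K).2 this
      obtain ⟨y, hy, hy'⟩ := halg.exists_integral_multiple
      exact ⟨y, hy, hy'⟩
    choose d hd hd' using h1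
    refine ⟨∏ i ∈ χ.support, d i, Finset.prod_ne_zero_iff.2 fun i _ => hd i, fun i hi => ?_⟩
    have h2 : ((∏ i ∈ χ.support, d i : ℤ) : K) * χ.coeff i =
        ((∏ j ∈ χ.support.erase i, d j : ℤ) : K) * (d i • χ.coeff i) := by
      rw [zsmul_eq_mul, ← mul_assoc, ← Int.cast_mul, Finset.prod_erase_mul _ _ hi]
    rw [h2]
    exact (isIntegral_algebraMap (R := ℤ) (A := K)).mul (hd' i)
  -- archimedean bound of the values
  obtain ⟨A, hA1, hA⟩ : ∃ A : ℝ, 1 ≤ A ∧ ∀ φ : K →+* ℂ, ∀ i ∈ χ.support,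
      ‖φ ((D : K) * χ.coeff i)‖ ≤ A := by
    have hfin : (Set.range fun q : (K →+* ℂ) × χ.support =>
        ‖q.1 ((D : K) * χ.coeff q.2.1)‖).Finite := Set.finite_range _
    obtain ⟨A, hA⟩ := hfin.bddAbove
    refine ⟨max A 1, le_max_right _ _, fun φ i hi => ?_⟩
    exact (hA ⟨(φ, ⟨i, hi⟩), rfl⟩).trans (le_max_left _ _)
  set r := Module.finrank ℚ K with hr
  set d := χ.natDegree with hd
  -- choice of the exponent: (A * (d+1) * (C+1)^d * p^d)^r * choose ≤ p^c for p large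
  refine ⟨d * r + 1, fun C => ?_⟩
  set M : ℝ := (A * (d + 1) * ((C : ℝ) + 1) ^ d) ^ r * ((r.choose (r / 2) : ℕ) : ℝ) with hM
  obtain ⟨B0, hB0⟩ := exists_nat_gt M
  refine ⟨max B0 D.natAbs, fun p hp hfact ι y hy hne => ?_⟩
  have hpB0 : (B0 : ℝ) < p := by exact_mod_cast lt_of_le_of_lt (le_max_left _ _) hp
  have hpD : D.natAbs < p := lt_of_le_of_lt (le_max_right _ _) hp
  have hp1 : (1 : ℝ) ≤ p := by exact_mod_cast hfact.1.one_lt.le
  set α : K := (D : K) * χ.eval (y : K) with hα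
  have hDK : (D : K) ≠ 0 := by exact_mod_cast hD0
  have hα0 : α ≠ 0 := mul_ne_zero hDK hne
  have hαs : α = ∑ i ∈ χ.support, ((D : K) * χ.coeff i) * (y : K) ^ i := by
    rw [hα, eval_eq_sum, Polynomial.sum, Finset.mul_sum]
    exact Finset.sum_congr rfl fun i _ => by ring
  have hαint : IsIntegral ℤ α := by
    rw [hαs]
    refine IsIntegral.sum _ fun i hi => (hD i hi).mul (IsIntegral.pow ?_ _)
    exact isIntegral_algebraMap (R := ℤ) (A := K) (x := y)
  have hybd : ∀ i ∈ χ.support, |(y : ℝ)| ^ i ≤ (((C : ℝ) + 1) * p) ^ d := by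
    intro i hi
    have h1 : |(y : ℝ)| ≤ ((C : ℝ) + 1) * p := by
      have : |(y : ℝ)| ≤ (C : ℝ) * p := by exact_mod_cast hy
      nlinarith
    have h2 : (1 : ℝ) ≤ ((C : ℝ) + 1) * p := by
      have : (0 : ℝ) ≤ (C : ℝ) := by positivity
      nlinarith
    calc |(y : ℝ)| ^ i ≤ (((C : ℝ) + 1) * p) ^ i := by gcongr
      _ ≤ (((C : ℝ) + 1) * p) ^ d := pow_le_pow_right₀ h2 (le_natDegree_of_mem_supp i hi)
  have hαbd : ∀ φ : K →+* ℂ, ‖φ α‖ ≤ A * (d + 1) * (((C : ℝ) + 1) * p) ^ d := by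
    intro φ
    rw [hαs, map_sum]
    have hcard : (χ.support.card : ℝ) ≤ d + 1 := by
      have h1 : χ.support.card ≤ d + 1 := by
        have h2 : χ.support ⊆ Finset.range (d + 1) := fun i hi =>
          Finset.mem_range.2 (Nat.lt_succ_of_le (le_natDegree_of_mem_supp i hi))
        simpa using Finset.card_le_card h2
      exact_mod_cast h1
    calc ‖∑ i ∈ χ.support, φ (((D : K) * χ.coeff i) * (y : K) ^ i)‖
        ≤ ∑ i ∈ χ.support, ‖φ (((D : K) * χ.coeff i) * (y : K) ^ i)‖ := norm_sum_le _ _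
      _ ≤ ∑ i ∈ χ.support, A * (((C : ℝ) + 1) * p) ^ d := by
          refine Finset.sum_le_sum fun i hi => ?_
          rw [map_mul, norm_mul, map_pow, map_intCast, norm_pow]
          have e1 : ‖((y : ℤ) : ℂ)‖ = |(y : ℝ)| := by
            rw [Complex.norm_intCast]
          rw [e1]
          have h3 := hA φ i hi
          have h4 := hybd i hi
          have h5 : (0 : ℝ) ≤ |(y : ℝ)| ^ i := by positivity
          have h6 : (0 : ℝ) ≤ ‖φ ((D : K) * χ.coeff i)‖ := norm_nonneg _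
          exact mul_le_mul h3 h4 h5 (by linarith)
      _ = (χ.support.card : ℝ) * (A * (((C : ℝ) + 1) * p) ^ d) := by
          rw [Finset.sum_const, nsmul_eq_mul]
      _ ≤ (d + 1) * (A * (((C : ℝ) + 1) * p) ^ d) := by
          apply mul_le_mul_of_nonneg_right hcard
          positivity
      _ = A * (d + 1) * (((C : ℝ) + 1) * p) ^ d := by ring
  have hmain := norm_ge_of_isIntegral K α hαint hα0 _ hαbd p ι
  have hα1 : ‖ι α‖ = ‖ι (χ.eval (y : K))‖ := by
    rw [hα, map_mul, map_intCast, norm_mul, norm_int_eq_one p D hD0 hpD, one_mul]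
  rw [hα1] at hmain
  refine le_trans ?_ hmain
  rw [inv_eq_one_div]
  have hAge : (1 : ℝ) ≤ A * (d + 1) * (((C : ℝ) + 1) * p) ^ d := by
    have h1 : (1 : ℝ) ≤ (d : ℝ) + 1 := by
      have : (0 : ℝ) ≤ (d : ℝ) := by positivity
      linarith
    have h2 : (1 : ℝ) ≤ ((C : ℝ) + 1) * p := by
      have : (0 : ℝ) ≤ (C : ℝ) := by positivity
      nlinarith
    have h3 : (1 : ℝ) ≤ (((C : ℝ) + 1) * p) ^ d := one_le_pow₀ h2
    have h4 : (1 : ℝ) ≤ A * (d + 1) := by nlinarith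
    nlinarith
  rw [max_eq_left hAge]
  apply one_div_le_one_div_of_le
  · have : (0 : ℝ) < ((r.choose (r / 2) : ℕ) : ℝ) := by
      exact_mod_cast Nat.choose_pos (Nat.div_le_self _ _)
    positivity
  · have e2 : (A * (d + 1) * (((C : ℝ) + 1) * p) ^ d) ^ r * ((r.choose (r / 2) : ℕ) : ℝ) =
        M * (p : ℝ) ^ (d * r) := by
      have e3 : A * (d + 1) * (((C : ℝ) + 1) * p) ^ d =
          (A * (d + 1) * ((C : ℝ) + 1) ^ d) * (p : ℝ) ^ d := by
        rw [mul_pow]; ring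
      rw [e3, mul_pow, ← pow_mul, hM]
      ring
    rw [e2, pow_succ, mul_comm]
    apply mul_le_mul_of_nonneg_left _ (by positivity)
    linarith

end Pool.CM
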