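import Pool.Agent.H10.CM.FStmts
import Pool.Agent.H10.CM.Red2

set_option autoImplicit false

open Polynomial

namespace Pool.CM

theorem embStmt : EmbStmt := fun K _ _ B => exists_embedding K B

namespace BASE

theorem mem_O {K : Type} [Field K] (P : PlaceK K) (x : K) : x ∈ P.O ↔ ‖P.ι x‖ ≤ 1 := Iff.rfl

theorem norm_p {K : Type} [Field K] (P : PlaceK K) :
    ‖P.ι ((P.p : ℕ) : K)‖ = (P.p : ℝ)⁻¹ := by
  rw [map_natCast, Padic.norm_p]

end BASE

open BASE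

theorem base : BASEStmt := by
  intro K _ _ h
  have hun : ∀ (P : PlaceK K) (x : K), (PF.base K h).Un P x ↔ ‖P.ι x‖ = 1 := by
    intro P x
    constructor
    · rintro ⟨h0, h1, h2⟩
      have h1' : ‖P.ι x‖ ≤ 1 := h1
      have h2' : ‖P.ι x⁻¹‖ ≤ 1 := h2
      have h3 : ‖P.ι x‖ * ‖P.ι x⁻¹‖ = 1 := by
        rw [← norm_mul, ← map_mul, mul_inv_cancel₀ h0, map_one, norm_one]
      nlinarith [norm_nonneg (P.ι x), norm_nonneg (P.ι x⁻¹)]
    · intro h1
      have h0 : x ≠ 0 := by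
        rintro rfl
        rw [map_zero, norm_zero] at h1
        exact zero_ne_one h1
      refine ⟨h0, ?_, ?_⟩
      · change ‖P.ι x‖ ≤ 1
        exact h1.le
      · change ‖P.ι x⁻¹‖ ≤ 1
        rw [map_inv₀, norm_inv, h1, inv_one]
  have hdiv : ∀ (P : PlaceK K) (M : ℕ) (x : K), (PF.base K h).Dv P M x ↔
      ‖P.ι x‖ ≤ (P.p : ℝ) ^ (-(M : ℤ)) := by
    intro P M x
    have hp0 : (0 : ℝ) < P.p := by exact_mod_cast P.hp.out.pos
    have hpK : ((P.p : ℕ) : K) ≠ 0 := by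
      exact_mod_cast P.hp.out.ne_zero
    constructor
    · rintro ⟨y, hy, rfl⟩
      have hy' : ‖P.ι y‖ ≤ 1 := hy
      change ‖P.ι (((P.p : ℕ) : K) ^ M * y)‖ ≤ _
      rw [map_mul, map_pow, norm_mul, norm_pow, norm_p, zpow_neg, zpow_natCast, inv_pow]
      have : (0 : ℝ) ≤ ((P.p : ℝ) ^ M)⁻¹ := by positivity
      nlinarith
    · intro hx
      refine ⟨((P.p : ℕ) : K)⁻¹ ^ M * x, ?_, ?_⟩
      · change ‖P.ι (((P.p : ℕ) : K)⁻¹ ^ M * x)‖ ≤ 1
        rw [map_mul, map_pow, map_inv₀, norm_mul, norm_pow, norm_inv, norm_p, inv_inv]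
        rw [zpow_neg, zpow_natCast] at hx
        have h3 : (0 : ℝ) < (P.p : ℝ) ^ M := by positivity
        calc (P.p : ℝ) ^ M * ‖P.ι x‖ ≤ (P.p : ℝ) ^ M * ((P.p : ℝ) ^ M)⁻¹ := by gcongr
          _ = 1 := mul_inv_cancel₀ h3.ne'
      · change x = ((P.p : ℕ) : K) ^ M * (((P.p : ℕ) : K)⁻¹ ^ M * x)
        rw [← mul_assoc, ← mul_pow, mul_inv_cancel₀ hpK, one_pow, one_mul]
  refine
    { scale := ?_
      p_inv := ?_
      phi_O := fun _ _ hx => hx
      phi_frob := ?_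
      pf2 := ?_
      pf4 := ?_
      pol_O := fun _ _ _ hx => hx
      pol_mono := fun _ _ _ _ => le_rfl
      pol_one := fun (P : PlaceK K) => P.O.one_mem
      pol_inv := ?_
      pol_mul := fun (P : PlaceK K) _ _ _ _ hx hy => P.O.mul_mem hx hy
      pol_sat := fun _ _ _ hx _ => hx
      pol_phi := fun _ _ _ hx => hx
      den_pol := fun _ _ _ hx => hx.2.1
      den_un := fun _ _ _ hx => hx
      den_mono := fun _ _ _ _ => subset_rfl
      den_one := ?_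
      den_mul := ?_
      den_phi := fun _ _ _ hx => hx
      fixed := ?_
      D_O := fun _ j => j.elim
      D_pol := fun _ j => j.elim
      D_phi := fun _ j => j.elim
      D_comm := fun j => j.elim }
  · intro (P : PlaceK K) x hx
    have hne : P.ι x ≠ 0 := by
      rw [Ne, map_eq_zero]; exact hx
    obtain ⟨n, hn⟩ := Padic.padicNormE.image hne
    have hp0 : (P.p : ℝ) ≠ 0 := by exact_mod_cast P.hp.out.ne_zero
    refine ⟨-n, (hun P _).2 ?_⟩
    change ‖P.ι (x * ((P.p : ℕ) : K) ^ (-n))‖ = 1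
    rw [map_mul, map_zpow₀, norm_mul, norm_zpow, norm_p, hn]
    push_cast
    rw [← zpow_neg_one, ← zpow_mul, ← zpow_add₀ hp0]
    simp
  · intro (P : PlaceK K) hmem
    have h1 : ‖P.ι (((P.p : ℕ) : K)⁻¹)‖ ≤ 1 := hmem
    rw [map_inv₀, norm_inv, norm_p, inv_inv] at h1
    have : (1 : ℝ) < P.p := by exact_mod_cast P.hp.out.one_lt
    linarith
  · intro (P : PlaceK K) x hx
    refine (hdiv P 1 _).2 ?_
    change ‖P.ι (x - x ^ P.p)‖ ≤ _
    have hx' : ‖P.ι x‖ ≤ 1 := hx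
    let a : ℤ_[P.p] := ⟨P.ι x, hx'⟩
    have h1 : PadicInt.toZMod (a - a ^ P.p) = 0 := by
      rw [map_sub, map_pow, ZMod.pow_card, sub_self]
    have h2 : a - a ^ P.p ∈ RingHom.ker (PadicInt.toZMod (p := P.p)) := h1
    rw [PadicInt.ker_toZMod, PadicInt.maximalIdeal_eq_span_p,
      Ideal.mem_span_singleton] at h2
    have h3 : ‖a - a ^ P.p‖ ≤ (P.p : ℝ) ^ (-(1 : ℕ) : ℤ) := by
      rw [PadicInt.norm_le_pow_iff_mem_span_pow, pow_one, Ideal.mem_span_singleton]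
      exact h2
    have h4 : ‖a - a ^ P.p‖ = ‖P.ι (x - x ^ P.p)‖ := by
      rw [map_sub, map_pow]
      rfl
    rw [← h4]
    exact h3
  · intro x hx
    obtain ⟨B, hB⟩ := norm_eq_one_eventually K x hx
    exact ⟨B, fun (P : PlaceK K) hP => (hun P x).2 (hB P.p hP P.ι)⟩
  · intro χ _
    obtain ⟨c, hc⟩ := height_property K χ
    refine ⟨c, fun C => ?_⟩
    obtain ⟨B, hB⟩ := hc C
    refine ⟨B, fun (P : PlaceK K) hP y hy hne => ?_⟩
    have h1 := hB P.p hP P.ι y hy hne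
    change ‖P.ι (((P.p : ℕ) : K) ^ c * (χ.eval (y : K))⁻¹)‖ ≤ 1
    have hp0 : (0 : ℝ) < P.p := by exact_mod_cast P.hp.out.pos
    have h2 : (0 : ℝ) < ((P.p : ℝ) ^ c)⁻¹ := by positivity
    have h3 : 0 < ‖P.ι (χ.eval (y : K))‖ := lt_of_lt_of_le h2 h1
    rw [map_mul, map_pow, map_inv₀, norm_mul, norm_pow, norm_inv, norm_p, inv_pow,
      ← div_eq_mul_inv, div_le_one h3]
    exact h1
  · intro (P : PlaceK K) n hn
    change ‖P.ι ((n : K)⁻¹)‖ ≤ 1
    rw [map_inv₀, map_natCast, norm_inv]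
    have h1 : ‖((n : ℕ) : ℚ_[P.p])‖ = 1 := by
      have h2 : ‖((n : ℤ) : ℚ_[P.p])‖ = 1 := by
        refine le_antisymm (Padic.norm_int_le_one _) ?_
        by_contra hcon
        push Not at hcon
        have hcon' : ‖(((n : ℤ)) : ℤ_[P.p])‖ < 1 := by
          have e : ‖((n : ℤ) : ℤ_[P.p])‖ = ‖((n : ℤ) : ℚ_[P.p])‖ := by
            rw [← PadicInt.padic_norm_e_of_padicInt]
            congr 1
          rw [e]; exact hcon
        rw [PadicInt.norm_int_lt_one_iff_dvd] at hcon'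
        exact hn (Int.natCast_dvd_natCast.1 hcon')
      exact_mod_cast h2
    rw [h1, inv_one]
  · intro (P : PlaceK K)
    refine ⟨one_ne_zero, P.O.one_mem, ?_⟩
    rw [inv_one]
    exact P.O.one_mem
  · rintro P d e x y ⟨hx0, hx1, hx2⟩ ⟨hy0, hy1, hy2⟩
    refine ⟨mul_ne_zero hx0 hy0, P.O.mul_mem hx1 hy1, ?_⟩
    rw [mul_inv]
    exact P.O.mul_mem hx2 hy2
  · intro x hx
    obtain ⟨B, hB⟩ := norm_eq_one_eventually K x hx
    refine ⟨0, B, fun (P : PlaceK K) hP => ⟨x, (hun P x).2 (hB P.p hP P.ι), 1, ?_, mul_one x⟩⟩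
    refine ⟨one_ne_zero, P.O.one_mem, ?_⟩
    rw [inv_one]
    exact P.O.one_mem

end Pool.CM
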