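import Pool.Agent.H10.CM.FStmts2

set_option autoImplicit false

open Polynomial

namespace Pool.CM

namespace CX

variable {X : Idx} {E : Type} [Field E] {A : PF X E}

/-- degree bound of the numerators -/
def bd (p c D m : ℕ) : ℕ := c * m + D * (p * (m / p))

theorem bd_mono {p c D m m' : ℕ} (h : m ≤ m') : bd p c D m ≤ bd p c D m' := by
  unfold bd
  have h1 : m / p ≤ m' / p := Nat.div_le_div_right h
  gcongr

theorem pow_den (hA : A.Ax) {i : X.I} {d : ℕ} {H : E} (hH : H ∈ A.den i d) (n : ℕ) :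
    H ^ n ∈ A.den i (d * n) := by
  induction n with
  | zero => simpa using hA.den_one i
  | succ n ih =>
    rw [pow_succ, Nat.mul_succ]
    exact hA.den_mul i _ _ _ _ ih hH

theorem pow_pol (hA : A.Ax) {i : X.I} {d : ℕ} {H : E} (hH : H ∈ A.pol i d) (n : ℕ) :
    H ^ n ∈ A.pol i (d * n) := by
  induction n with
  | zero => simpa using hA.pol_one i
  | succ n ih =>
    rw [pow_succ, Nat.mul_succ]
    exact hA.pol_mul i _ _ _ _ ih hH

theorem Un.mul' {i : X.I} {x y : E} (hx : A.Un i x) (hy : A.Un i y) : A.Un i (x * y) :=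
  ⟨mul_ne_zero hx.1 hy.1, (A.O i).mul_mem hx.2.1 hy.2.1, by
    rw [mul_inv]; exact (A.O i).mul_mem hx.2.2 hy.2.2⟩

/-- the set of `x` with `x * H ^ m * φ(H) ^ (m / p)` an integral polynomial of degree at most
`bd p c D m` -/
noncomputable def cx (A : PF X E) (i : X.I) (H : E) (c D m : ℕ) : AddSubgroup E where
  carrier := {x | x * (H ^ m * A.phi i H ^ (m / X.p i)) ∈ A.pol i (bd (X.p i) c D m)}
  add_mem' := by
    intro x y hx hy
    have hx' : x * (H ^ m * A.phi i H ^ (m / X.p i)) ∈ A.pol i (bd (X.p i) c D m) := hx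
    have hy' : y * (H ^ m * A.phi i H ^ (m / X.p i)) ∈ A.pol i (bd (X.p i) c D m) := hy
    change (x + y) * (H ^ m * A.phi i H ^ (m / X.p i)) ∈ A.pol i (bd (X.p i) c D m)
    rw [add_mul]
    exact (A.pol i _).add_mem hx' hy'
  zero_mem' := by
    change (0 : E) * (H ^ m * A.phi i H ^ (m / X.p i)) ∈ A.pol i (bd (X.p i) c D m)
    rw [zero_mul]
    exact (A.pol i _).zero_mem
  neg_mem' := by
    intro x hx
    have hx' : x * (H ^ m * A.phi i H ^ (m / X.p i)) ∈ A.pol i (bd (X.p i) c D m) := hx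
    change (-x) * (H ^ m * A.phi i H ^ (m / X.p i)) ∈ A.pol i (bd (X.p i) c D m)
    rw [neg_mul]
    exact (A.pol i _).neg_mem hx'

theorem mem_cx {i : X.I} {H : E} {c D m : ℕ} {x : E} :
    x ∈ cx A i H c D m ↔ x * (H ^ m * A.phi i H ^ (m / X.p i)) ∈ A.pol i (bd (X.p i) c D m) :=
  Iff.rfl

end CX

open CX

theorem cx : CXStmt := by
  classical
  intro X E _ A hA S
  -- numerators and denominators
  have hex : ∀ x : E, ∃ d : ℕ, x ≠ 0 → X.Ev fun i =>
      ∃ g ∈ A.den i d, ∃ h ∈ A.den i d, x * h = g := by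
    intro x
    by_cases hx : x = 0
    · exact ⟨0, fun h => absurd hx h⟩
    · obtain ⟨d, hd⟩ := hA.fixed x hx
      exact ⟨d, fun _ => hd⟩
  choose d hd using hex
  set S' : Finset E := S.filter fun x => x ≠ 0 with hS'
  set D : ℕ := ∑ x ∈ S', d x with hD
  -- at almost every place: a common denominator `H ∈ den D`
  have hH : X.Ev fun i => ∃ H ∈ A.den i D, ∀ x ∈ S, x * H ∈ A.pol i D := by
    have h1 : X.Ev fun i => ∀ x ∈ S', ∃ g ∈ A.den i (d x), ∃ h ∈ A.den i (d x), x * h = g :=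
      Idx.Ev.allFinset S' fun x hx => hd x (Finset.mem_filter.1 hx).2
    refine h1.mono fun i hi => ?_
    choose! g hg h hh he using hi
    have hprod : ∀ T : Finset E, T ⊆ S' → (∏ x ∈ T, h x) ∈ A.den i (∑ x ∈ T, d x) := by
      intro T
      induction T using Finset.induction_on with
      | empty =>
        intro _
        simpa using hA.den_one i
      | insert a T ha ih =>
        intro hT
        rw [Finset.prod_insert ha, Finset.sum_insert ha]
        exact hA.den_mul i _ _ _ _ (hh a (hT (Finset.mem_insert_self _ _)))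
          (ih fun x hx => hT (Finset.mem_insert_of_mem hx))
    refine ⟨∏ x ∈ S', h x, hprod S' subset_rfl, fun x hx => ?_⟩
    by_cases hx0 : x = 0
    · rw [hx0, zero_mul]
      exact (A.pol i _).zero_mem
    · have hxS : x ∈ S' := Finset.mem_filter.2 ⟨hx, hx0⟩
      have e1 : x * ∏ y ∈ S', h y = g x * ∏ y ∈ S'.erase x, h y := by
        rw [← Finset.mul_prod_erase _ _ hxS, ← mul_assoc, he x hxS]
      have e2 : D = d x + ∑ y ∈ S'.erase x, d y := by
        rw [hD, Finset.add_sum_erase _ _ hxS]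
      rw [e1, e2]
      exact hA.pol_mul i _ _ _ _ (hA.den_pol i _ _ (hg x hxS))
        (hA.den_pol i _ _ (hprod _ (Finset.erase_subset _ _)))
  -- the choice of `H`
  set Hf : X.I → E := fun i => if h : ∃ H ∈ A.den i D, ∀ x ∈ S, x * H ∈ A.pol i D
    then h.choose else 1 with hHf
  refine ⟨fun i m => CX.cx A i (Hf i) (D + 1) (D + 1) m, 2 * (D + 1), ?_⟩
  refine (hH.and (Idx.Ev.large 1)).mono fun i ⟨hi, hp1⟩ => ?_
  have hHi : Hf i ∈ A.den i D ∧ ∀ x ∈ S, x * Hf i ∈ A.pol i D := by
    simp only [hHf]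
    rw [dif_pos hi]
    exact hi.choose_spec
  obtain ⟨hHd, hHS⟩ := hHi
  set H := Hf i with hHdef
  have hp : 0 < X.p i := (X.hp i).pos
  have hHp : H ∈ A.pol i D := hA.den_pol i _ _ hHd
  have hHu : A.Un i H := hA.den_un i _ _ hHd
  have hφd : A.phi i H ∈ A.den i (X.p i * D) := hA.den_phi i _ _ hHd
  have hφp : A.phi i H ∈ A.pol i (X.p i * D) := hA.den_pol i _ _ hφd
  have hφu : A.Un i (A.phi i H) := hA.den_un i _ _ hφd
  have hWu : ∀ m, A.Un i (H ^ m * A.phi i H ^ (m / X.p i)) := by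
    intro m
    refine Un.mul' (hA.den_un i _ _ (pow_den hA hHd m)) (hA.den_un i _ _ (pow_den hA hφd _))
  -- passing from `m` to `m'`
  have hmono : ∀ m m' x, m ≤ m' → x ∈ CX.cx A i H (D + 1) (D + 1) m →
      x ∈ CX.cx A i H (D + 1) (D + 1) m' := by
    intro m m' x hmm hx
    rw [mem_cx] at hx ⊢
    have hk : m / X.p i ≤ m' / X.p i := Nat.div_le_div_right hmm
    have e : x * (H ^ m' * A.phi i H ^ (m' / X.p i)) =
        (x * (H ^ m * A.phi i H ^ (m / X.p i))) *
          (H ^ (m' - m) * A.phi i H ^ (m' / X.p i - m / X.p i)) := by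
      have e1 : H ^ m' = H ^ m * H ^ (m' - m) := by rw [← pow_add]; congr 1; omega
      have e2 : A.phi i H ^ (m' / X.p i) =
          A.phi i H ^ (m / X.p i) * A.phi i H ^ (m' / X.p i - m / X.p i) := by
        rw [← pow_add]; congr 1; omega
      rw [e1, e2]; ring
    rw [e]
    have h1 := hA.pol_mul i _ _ _ _ hx (hA.pol_mul i _ _ _ _ (pow_pol hA hHp (m' - m))
      (pow_pol hA hφp (m' / X.p i - m / X.p i)))
    refine hA.pol_mono i _ _ ?_ h1
    unfold bd
    obtain ⟨k, hk'⟩ := Nat.exists_eq_add_of_le hk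
    obtain ⟨l, hl⟩ := Nat.exists_eq_add_of_le hmm
    rw [hk', hl]
    simp only [Nat.add_sub_cancel_left]
    nlinarith [Nat.zero_le (D * l), Nat.zero_le (X.p i * k)]
  refine ⟨?_, ?_, ?_, ?_, ?_, ?_, ?_, ?_, ?_, ?_⟩
  · -- integrality
    intro m x hx
    rw [mem_cx] at hx
    have h1 := hA.pol_O i _ _ hx
    have h2 := (A.O i).mul_mem h1 (hWu m).2.2
    rwa [mul_assoc, mul_inv_cancel₀ (hWu m).1, mul_one] at h2
  · intro m m' hmm x hx
    exact hmono m m' x hmm hx
  · rw [mem_cx]
    simp only [pow_zero, Nat.zero_div, mul_one, bd, Nat.mul_zero, Nat.add_zero]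
    exact hA.pol_one i
  · -- multiplication
    intro a b x y hx hy
    rw [mem_cx] at hx hy ⊢
    obtain ⟨e, he⟩ : ∃ e, (a + b) / X.p i = a / X.p i + b / X.p i + e := by
      obtain ⟨e, he⟩ := Nat.exists_eq_add_of_le (Nat.div_add_div_le_add_div)
      exact ⟨e, he⟩
    have h1 := hA.pol_mul i _ _ _ _ (hA.pol_mul i _ _ _ _ hx hy) (pow_pol hA hφp e)
    have e1 : x * y * (H ^ (a + b) * A.phi i H ^ ((a + b) / X.p i)) =
        x * (H ^ a * A.phi i H ^ (a / X.p i)) * (y * (H ^ b * A.phi i H ^ (b / X.p i))) *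
          A.phi i H ^ e := by
      rw [he]; ring
    rw [e1]
    refine hA.pol_mono i _ _ ?_ h1
    unfold bd
    rw [he]
    nlinarith [Nat.zero_le (X.p i * e)]
  · -- rationals with denominator prime to `p`
    intro n hn m x hx
    rw [mem_cx] at hx ⊢
    rw [mul_assoc]
    have := hA.pol_mul i _ _ _ _ (hA.pol_inv i n hn) hx
    rwa [Nat.zero_add] at this
  · -- saturation
    intro m x hxO hx
    rw [mem_cx] at hx ⊢
    apply hA.pol_sat i
    · exact (A.O i).mul_mem hxO (hWu m).2.1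
    · rwa [mul_assoc] at hx
  · intro x hx
    rw [mem_cx]
    have h1 : 1 / X.p i = 0 := Nat.div_eq_of_lt hp1
    rw [h1, pow_zero, pow_one, mul_one]
    refine hA.pol_mono i _ _ ?_ (hHS x hx)
    unfold bd
    rw [h1]
    omega
  · intro x hx
    rw [mem_cx, Nat.div_self hp, pow_one]
    have h1 : A.phi i x * (H ^ X.p i * A.phi i H) = A.phi i (x * H) * H ^ X.p i := by
      rw [map_mul]; ring
    rw [h1]
    have h2 := hA.pol_mul i _ _ _ _ (hA.pol_phi i _ _ (hHS x hx)) (pow_pol hA hHp (X.p i))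
    refine hA.pol_mono i _ _ ?_ h2
    unfold bd
    rw [Nat.div_self hp]
    nlinarith
  · intro C x hx
    rw [mem_cx] at hx
    have hdiv : X.p i * C / X.p i = C := Nat.mul_div_cancel_left _ hp
    rw [hdiv] at hx
    refine ⟨x * (H ^ (X.p i * C) * A.phi i H ^ C), ?_, H ^ (X.p i * C) * A.phi i H ^ C, ?_, rfl⟩
    · refine hA.pol_mono i _ _ ?_ hx
      unfold bd
      rw [hdiv]
      nlinarith
    · have h1 := hA.den_mul i _ _ _ _ (pow_den hA hHd (X.p i * C)) (pow_den hA hφd C)
      refine hA.den_mono i _ _ ?_ h1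
      nlinarith [Nat.zero_le (X.p i * C)]
  · -- derivations
    intro m j x hx
    rw [mem_cx] at hx ⊢
    set k := m / X.p i with hk
    have hk' : (m + X.p i + 1) / X.p i = k + 1 + (m % X.p i + 1) / X.p i := by
      have h1 : m + X.p i + 1 = X.p i * (k + 1) + (m % X.p i + 1) := by
        have := Nat.div_add_mod m (X.p i)
        rw [hk]
        linarith
      rw [h1, Nat.mul_add_div hp]
    obtain ⟨e, he⟩ : ∃ e, (m + X.p i + 1) / X.p i = k + 1 + e := ⟨_, hk'⟩
    -- derivative of the product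
    set W : E := H ^ m * A.phi i H ^ k with hW
    set N : E := x * W with hN
    have hDH : A.D j H ∈ A.pol i D := hA.D_pol i j _ _ hHp
    have hDφ : A.D j (A.phi i H) ∈ A.pol i (X.p i * D) := hA.D_pol i j _ _ hφp
    have hDN : A.D j N ∈ A.pol i (bd (X.p i) (D + 1) (D + 1) m) := hA.D_pol i j _ _ hx
    have hDW : A.D j W * (H * A.phi i H) =
        W * ((m : E) * A.D j H * A.phi i H + (k : E) * H * A.D j (A.phi i H)) := by
      rw [hW, Derivation.leibniz, Derivation.leibniz_pow, Derivation.leibniz_pow]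
      simp only [smul_eq_mul, nsmul_eq_mul]
      rcases Nat.eq_zero_or_pos m with hm | hm <;> rcases Nat.eq_zero_or_pos k with hk0 | hk0
      · rw [hm, hk0]; simp
      · rw [hm]
        obtain ⟨k', hk''⟩ := Nat.exists_eq_succ_of_ne_zero hk0.ne'
        rw [hk'']
        simp only [Nat.cast_zero, zero_mul, mul_zero, add_zero, zero_add, pow_zero, one_mul,
          Nat.succ_eq_add_one, Nat.add_sub_cancel, pow_succ]
        ring
      · rw [hk0]
        obtain ⟨m', rfl⟩ := Nat.exists_eq_succ_of_ne_zero hm.ne'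
        simp only [Nat.cast_zero, zero_mul, mul_zero, add_zero, zero_add, pow_zero, one_mul,
          mul_one, Nat.succ_eq_add_one, Nat.add_sub_cancel, pow_succ]
        ring
      · obtain ⟨m', rfl⟩ := Nat.exists_eq_succ_of_ne_zero hm.ne'
        obtain ⟨k', hk''⟩ := Nat.exists_eq_succ_of_ne_zero hk0.ne'
        rw [hk'']
        simp only [Nat.succ_eq_add_one, Nat.add_sub_cancel, pow_succ]
        ring
    have hDx : A.D j x * W * (H * A.phi i H) =
        A.D j N * (H * A.phi i H) -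
          N * ((m : E) * A.D j H * A.phi i H + (k : E) * H * A.D j (A.phi i H)) := by
      have h1 : A.D j N = x * A.D j W + W * A.D j x := by
        rw [hN, Derivation.leibniz, smul_eq_mul, smul_eq_mul]
      rw [h1, hN]
      linear_combination -x * hDW
    have hnat : ∀ (n d : ℕ) (y : E), y ∈ A.pol i d → (n : E) * y ∈ A.pol i d := by
      intro n d y hy
      rw [← nsmul_eq_mul]
      exact (A.pol i d).nsmul_mem hy n
    have hmain : A.D j x * W * (H * A.phi i H) ∈
        A.pol i (bd (X.p i) (D + 1) (D + 1) m + (D + X.p i * D)) := by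
      rw [hDx]
      refine (A.pol i _).sub_mem ?_ ?_
      · exact hA.pol_mul i _ _ _ _ hDN (hA.pol_mul i _ _ _ _ hHp hφp)
      · refine hA.pol_mul i _ _ _ _ hx ((A.pol i _).add_mem ?_ ?_)
        · rw [mul_assoc]
          exact hnat _ _ _ (hA.pol_mul i _ _ _ _ hDH hφp)
        · rw [mul_assoc]
          exact hnat _ _ _ (hA.pol_mul i _ _ _ _ hHp hDφ)
    have hfin := hA.pol_mul i _ _ _ _ hmain (hA.pol_mul i _ _ _ _ (pow_pol hA hHp (X.p i))
      (pow_pol hA hφp e))
    have e1 : A.D j x * (H ^ (m + X.p i + 1) * A.phi i H ^ ((m + X.p i + 1) / X.p i)) =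
        A.D j x * W * (H * A.phi i H) * (H ^ X.p i * A.phi i H ^ e) := by
      rw [he, hW]; ring
    rw [e1]
    refine hA.pol_mono i _ _ ?_ hfin
    unfold bd
    rw [he, ← hk]
    nlinarith [Nat.zero_le (X.p i * e), Nat.zero_le (D * X.p i)]

end Pool.CM
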