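import Pool.Agent.H10.CM.FStmts

set_option autoImplicit false

namespace Pool.CM

theorem ext (h1 : SCLStmt) (h2 : PHIStmt) (h3 : UNIStmt) (h4 : HGTStmt) (h5 : POLStmt)
    (h6 : SATStmt) (h7 : DENStmt) (h8 : FIXStmt) (h9 : DERStmt) : EXTStmt := by
  intro X E _ A hA
  obtain ⟨a1, a2⟩ := h1 X E A hA
  obtain ⟨b1, b2⟩ := h2 X E A hA
  obtain ⟨c1, c2, c3, c4, c5, c6⟩ := h5 X E A hA
  obtain ⟨d1, d2, d3, d4, d5, d6⟩ := h7 X E A hA
  obtain ⟨e1, e2, e3, e4⟩ := h9 X E A hA
  exact
    { scale := a1
      p_inv := a2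
      phi_O := b1
      phi_frob := b2
      pf2 := h3 X E A hA
      pf4 := h4 X E A hA
      pol_O := c1
      pol_mono := c2
      pol_one := c3
      pol_inv := c4
      pol_mul := c5
      pol_sat := h6 X E A hA
      pol_phi := c6
      den_pol := d1
      den_un := d2
      den_mono := d3
      den_one := d4
      den_mul := d5
      den_phi := d6
      fixed := h8 X E A hA
      D_O := e1
      D_pol := e2
      D_phi := e3
      D_comm := e4 }

end Pool.CM
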