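import Pool.Agent.H19.CM.VALU
import Pool.Agent.H89.CM.TCL
import Pool.Agent.H89.CM.TFX
import Pool.Agent.H63.CM.PRM
import Pool.Agent.H14.CM.GAU
import Pool.Agent.H14.CM.HGT
import Pool.Agent.H14.CM.FIX
import Pool.Agent.H14.CM.DER
import Pool.Agent.H15.CM.SCL
import Pool.Agent.H15.CM.UNI
import Pool.Agent.H15.CM.SAT
import Pool.Agent.H33.CM.PHI
import Pool.Agent.H33.CM.DEN
import Pool.Agent.H33.CM.XTE
import Pool.Agent.H44.CM.XPH
import Pool.Agent.H44.CM.XDE
import Pool.Agent.H44.CM.XCG
import Pool.Agent.H87.CM.POL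
import Pool.Agent.H87.CM.XT
import Pool.Agent.H10.CM.BASE
import Pool.Agent.H10.CM.EXT
import Pool.Agent.H10.CM.CX

set_option autoImplicit false

/-! Block FIELDS without hypotheses. -/

namespace Pool.CM.All


theorem valu : VALUStmt := Pool.CM.valu
theorem tcl : TCLStmt := Pool.CM.tcl valu
theorem tfx : TFXStmt := Pool.CM.tfx tcl
theorem prm : PRMStmt := Pool.CM.prm valu
theorem gau : GAUStmt := Pool.CM.gau valu prm
theorem scl : SCLStmt := Pool.CM.scl gau
theorem phi : PHIStmt := Pool.CM.phi valu prm gau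
theorem uni : UNIStmt := Pool.CM.uni gau
theorem hgt : HGTStmt := Pool.CM.hgt valu gau
theorem sat : SATStmt := Pool.CM.sat gau
theorem den : DENStmt := Pool.CM.den valu gau
theorem fix : FIXStmt := Pool.CM.fix valu
theorem der : DERStmt := Pool.CM.der valu gau
theorem xph : XPHStmt := Pool.CM.xph
theorem xde : XDEStmt := Pool.CM.xde
theorem cx : CXStmt := Pool.CM.cx
theorem base : BASEStmt := Pool.CM.base

theorem pol : POLStmt := Pool.CM.pol valu gau
theorem xt : XTStmt := Pool.CM.xt valu
theorem ext : EXTStmt := Pool.CM.ext scl phi uni hgt pol sat den fix der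

theorem xcg : XCGStmt := Pool.CM.xcg valu gau xt

theorem xte : XTEStmt := Pool.CM.xte valu xt

end Pool.CM.All
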