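import Pool.Agent.H10.CM.DegNat

set_option autoImplicit false

/-!
# MP_47888e_al, cube project: `CellStmt`
-/

open Finset MvPolynomial

namespace Pool.CM.EG

open Pool.CM Pool.H93.Cube Pool.CUBE Pool.H44.Cube

section
variable {n : ℕ} {F : Type} [CommRing F]

/-- `hz` as an additive map -/
noncomputable def hzA (n : ℕ) (F : Type) [CommRing F] (d : ℕ) :
    MvPolynomial (Fin n) F →+ MvPolynomial (Fin (n + 1)) F where
  toFun P := hz n F d P
  map_zero' := by
    rw [hz, support_zero, Finset.sum_empty]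
  map_add' P Q := by
    classical
    rw [hz_eq d (P + Q) (P.support ∪ Q.support) support_add,
      hz_eq d P (P.support ∪ Q.support) Finset.subset_union_left,
      hz_eq d Q (P.support ∪ Q.support) Finset.subset_union_right, ← Finset.sum_add_distrib]
    refine Finset.sum_congr rfl fun κ _ => ?_
    rw [coeff_add, C_add, add_mul]

theorem hz_Cmul (d : ℕ) (a : F) (P : MvPolynomial (Fin n) F) :
    hz n F d (C a * P) = C a * hz n F d P := by
  have h : (C a * P).support ⊆ P.support := by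
    rw [C_mul']
    exact support_smul
  rw [hz_eq d (C a * P) P.support h, hz, Finset.mul_sum]
  refine Finset.sum_congr rfl fun κ _ => ?_
  rw [coeff_C_mul, C_mul, mul_assoc]

theorem hz_mon (d : ℕ) (v : Fin n → ℕ) : hz n F d (mon F v) =
    SZ (n + 1) F ^ (d - tdeg v) * ∏ l : Fin n, H44.Cube.cc (n + 1) F l.succ ^ v l := by
  classical
  rw [hz_eq d (mon F v) {Finsupp.equivFunOnFinite.symm v} support_monomial_subset,
    Finset.sum_singleton, mon, coeff_monomial, if_pos rfl, C_1, one_mul]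
  rfl

theorem clP_eq (l : Fin n) : clP n F l = H44.Cube.cc (n + 1) F l.succ := by
  rw [clP, H44.Cube.cc]
  refine Finset.sum_congr ?_ fun _ _ => rfl
  ext i
  simp only [Finset.mem_filter, Finset.mem_univ, true_and]
  rw [Fin.le_def, Fin.val_succ]
  omega

theorem homD_monomial (d : ℕ) (v : Fin n → ℕ) (c : F) :
    homD d (monomial (Finsupp.equivFunOnFinite.symm v) c) = C c * hz n F d (mon F v) := by
  have h1 : (Finsupp.equivFunOnFinite.symm v : Fin n →₀ ℕ).degree = tdeg v := by
    rw [Finsupp.degree_eq_sum]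
    rfl
  have h2 : ∏ l, clP n F l ^ (Finsupp.equivFunOnFinite.symm v : Fin n →₀ ℕ) l =
      ∏ l : Fin n, H44.Cube.cc (n + 1) F l.succ ^ v l :=
    Finset.prod_congr rfl fun l _ => by rw [clP_eq]; rfl
  rw [homD, linMon_monomial, hz_mon, smul_eq_C_mul, h1, h2]
  rfl

end

section
variable {n : ℕ} {E : Type} [Field E]

/-- the form of a corner as an additive map -/
noncomputable def nkF (D : ℕ) (μ : Fin n →₀ ℕ) :
    Polynomial (MvPolynomial (Fin n) E) →+ Poly n (RatFunc E) where
  toFun P := P.sum fun k c => C ((RatFunc.X : RatFunc E) ^ k) *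
    map (RatFunc.C (K := E)) (homD D (monomial μ 1 * c))
  map_zero' := Polynomial.sum_zero_index _
  map_add' P Q := by
    refine Polynomial.sum_add_index P Q _ ?_ ?_
    · intro k
      rw [mul_zero, map_zero, map_zero, mul_zero]
    · intro k c1 c2
      rw [mul_add, map_add, map_add, mul_add]

theorem nkF_monomial (D : ℕ) (μ : Fin n →₀ ℕ) (k : ℕ) (c : MvPolynomial (Fin n) E) :
    nkF D μ (Polynomial.monomial k c) = C ((RatFunc.X : RatFunc E) ^ k) *
      map (RatFunc.C (K := E)) (homD D (monomial μ 1 * c)) := by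
  have h := Polynomial.sum_monomial_index (n := k) c (fun k c =>
    C ((RatFunc.X : RatFunc E) ^ k) * map (RatFunc.C (K := E)) (homD D (monomial μ 1 * c)))
    (by rw [mul_zero, map_zero, map_zero, mul_zero])
  exact h

theorem NK_eq (Kc : Corner n E) : NK Kc = nkF Kc.D Kc.μ (1 + Kc.w) := by
  have h := Polynomial.sum_over_range (1 + Kc.w) (f := fun k c =>
    C ((RatFunc.X : RatFunc E) ^ k) * map (RatFunc.C (K := E))
      (homD Kc.D (monomial Kc.μ 1 * c))) (fun k => by
    rw [mul_zero, map_zero, map_zero, mul_zero])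
  exact h.symm

end

theorem cell_thm : CellStmt := by
  classical
  intro K _ n B g κ0 hκ0 hmin hdet
  have hlt : ∀ κ ∈ g.support.erase κ0,
      tdeg (act B (κ0 : Fin n → ℕ)) < tdeg (act B (κ : Fin n → ℕ)) := fun κ hκ =>
    tdeg_lt hdet (Finset.ne_of_mem_erase hκ) (hmin κ (Finset.mem_of_mem_erase hκ))
  obtain ⟨D1, hD1⟩ : ∃ D1 : ℕ, ∀ κ ∈ g.support, tdeg (act B (κ : Fin n → ℕ)) ≤ D1 :=
    ⟨g.support.sup fun κ => tdeg (act B (κ : Fin n → ℕ)), fun κ hκ =>
      Finset.le_sup (f := fun κ : Fin n →₀ ℕ => tdeg (act B (κ : Fin n → ℕ))) hκ⟩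
  refine ⟨D1 + 1, fun D hD E _ _ ι b hb => ?_⟩
  have hD0 : tdeg (act B (κ0 : Fin n → ℕ)) < D := by
    have := hD1 κ0 hκ0
    omega
  set c : (Fin n →₀ ℕ) → E := fun κ => ι (g.coeff κ) * (ι (g.coeff κ0))⁻¹ *
    ((∏ i, b i ^ κ i) * (∏ i, b i ^ κ0 i)⁻¹) with hc
  set ν : (Fin n →₀ ℕ) → (Fin n → ℕ) := fun κ l =>
    act B (κ : Fin n → ℕ) l - act B (κ0 : Fin n → ℕ) l with hν
  set d : (Fin n →₀ ℕ) → ℕ := fun κ =>
    tdeg (act B (κ : Fin n → ℕ)) - tdeg (act B (κ0 : Fin n → ℕ)) with hd
  set w : Polynomial (MvPolynomial (Fin n) E) := ∑ κ ∈ g.support.erase κ0,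
    Polynomial.monomial (d κ) (monomial (Finsupp.equivFunOnFinite.symm (ν κ)) (c κ)) with hw
  have hdν : ∀ κ ∈ g.support.erase κ0, tdeg (ν κ) = d κ := by
    intro κ hκ
    have h1 : tdeg (act B (κ : Fin n → ℕ)) = tdeg (ν κ) + tdeg (act B (κ0 : Fin n → ℕ)) := by
      rw [tdeg, tdeg, tdeg, ← Finset.sum_add_distrib]
      refine Finset.sum_congr rfl fun l _ => ?_
      exact (Nat.sub_add_cancel (hmin κ (Finset.mem_of_mem_erase hκ) l)).symm
    rw [hd]
    simp only
    omega
  have hμdeg : (Finsupp.equivFunOnFinite.symm (act B (κ0 : Fin n → ℕ)) : Fin n →₀ ℕ).degree =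
      tdeg (act B (κ0 : Fin n → ℕ)) := by
    rw [Finsupp.degree_eq_sum]
    rfl
  have hwc : ∀ k, w.coeff k = ∑ κ ∈ g.support.erase κ0, if d κ = k then
      monomial (Finsupp.equivFunOnFinite.symm (ν κ)) (c κ) else 0 := by
    intro k
    rw [hw, Polynomial.finsetSum_coeff]
    exact Finset.sum_congr rfl fun κ _ => Polynomial.coeff_monomial
  have hw0 : w.coeff 0 = 0 := by
    rw [hwc]
    refine Finset.sum_eq_zero fun κ hκ => if_neg ?_
    have := hlt κ hκ
    rw [hd]
    simp only
    omega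
  have hdeg : ∀ k, (Finsupp.equivFunOnFinite.symm (act B (κ0 : Fin n → ℕ)) :
      Fin n →₀ ℕ).degree + (w.coeff k).totalDegree < D := by
    intro k
    have h1 : (w.coeff k).totalDegree ≤ D1 - tdeg (act B (κ0 : Fin n → ℕ)) := by
      rw [hwc]
      refine totalDegree_finsetSum_le fun κ hκ => ?_
      split_ifs with h
      · refine (totalDegree_monomial_le _ _).trans ?_
        have h2 := hdν κ hκ
        have h3 := hD1 κ (Finset.mem_of_mem_erase hκ)
        have h4 : (Finsupp.sum (Finsupp.equivFunOnFinite.symm (ν κ)) fun _ => id) =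
            tdeg (ν κ) := by
          rw [Finsupp.sum_fintype _ _ fun _ => rfl]
          rfl
        rw [h4, h2, hd]
        simp only
        omega
      · rw [totalDegree_zero]
        exact Nat.zero_le _
    rw [hμdeg]
    have := hD1 κ0 hκ0
    omega
  let Kc : Corner n E :=
    { D := D
      μ := Finsupp.equivFunOnFinite.symm (act B (κ0 : Fin n → ℕ))
      w := w
      hD := by omega
      hw := hw0
      hμ := by rw [hμdeg]; exact hD0
      hdeg := hdeg }
  set a : RatFunc E := RatFunc.C (ι (g.coeff κ0) * ∏ i, b i ^ κ0 i) *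
    (RatFunc.X : RatFunc E) ^ tdeg (act B (κ0 : Fin n → ℕ)) with ha
  have hb0 : ∀ κ : Fin n →₀ ℕ, ∏ i, b i ^ κ i ≠ 0 := fun κ =>
    Finset.prod_ne_zero_iff.2 fun i _ => pow_ne_zero _ (hb i)
  have hι : ι (g.coeff κ0) ≠ 0 := by
    rw [map_ne_zero]
    exact mem_support_iff.1 hκ0
  refine ⟨Kc, a, ?_, rfl, ?_⟩
  · refine mul_ne_zero ?_ (pow_ne_zero _ RatFunc.X_ne_zero)
    rw [map_ne_zero]
    exact mul_ne_zero hι (hb0 κ0)
  · rw [cellN, cellG_leading ((RatFunc.C (K := E)).comp ι) (fun i => RatFunc.C (b i))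
      (RatFunc.X : RatFunc E) (fun i => by rw [map_ne_zero]; exact hb i) B g κ0 hκ0 hmin]
    have e1 : ∀ κ : Fin n →₀ ℕ, ∏ i, (RatFunc.C (b i) : RatFunc E) ^ κ i =
        RatFunc.C (∏ i, b i ^ κ i) := by
      intro κ
      rw [map_prod]
      exact Finset.prod_congr rfl fun i _ => (map_pow _ _ _).symm
    have e2 : ((RatFunc.C (K := E)).comp ι) (g.coeff κ0) *
        (∏ i, (RatFunc.C (b i) : RatFunc E) ^ κ0 i) *
        RatFunc.X ^ tdeg (act B (κ0 : Fin n → ℕ)) = a := by
      rw [e1, ha, map_mul, RingHom.comp_apply]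
    rw [e2, hz_Cmul]
    congr 1
    rw [NK_eq]
    change hzA n (RatFunc E) D _ = nkF D (Finsupp.equivFunOnFinite.symm
      (act B (κ0 : Fin n → ℕ))) (1 + w)
    rw [map_add, map_add, map_sum, hw, map_sum]
    have e3 : ∀ v : Fin n → ℕ, map (RatFunc.C (K := E)) (hz n E D (mon E v)) =
        hz n (RatFunc E) D (mon (RatFunc E) v) := by
      intro v
      rw [map_hz, map_mon]
    congr 1
    · change hz n (RatFunc E) D (mon (RatFunc E) (act B (κ0 : Fin n → ℕ))) = _
      rw [← Polynomial.monomial_zero_one, nkF_monomial, pow_zero, C_1, one_mul, mul_one,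
        homD_monomial, C_1, one_mul, e3]
    · refine Finset.sum_congr rfl fun κ hκ => ?_
      have hle : tdeg (act B (κ0 : Fin n → ℕ)) ≤ tdeg (act B (κ : Fin n → ℕ)) := (hlt κ hκ).le
      have hνμ : (act B (κ0 : Fin n → ℕ)) + ν κ = act B (κ : Fin n → ℕ) := by
        funext l
        exact Nat.add_sub_cancel' (hmin κ (Finset.mem_of_mem_erase hκ) l)
      have e4 : (monomial (Finsupp.equivFunOnFinite.symm (act B (κ0 : Fin n → ℕ))) 1 :
          MvPolynomial (Fin n) E) * monomial (Finsupp.equivFunOnFinite.symm (ν κ)) (c κ) =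
          monomial (Finsupp.equivFunOnFinite.symm (act B (κ : Fin n → ℕ))) (c κ) := by
        rw [monomial_mul, one_mul]
        congr 2
        rw [← hνμ]
        ext l
        rfl
      have e5 : map (RatFunc.C (K := E)) (C (c κ) *
          hz n E D (mon E (act B (κ : Fin n → ℕ)))) = C (RatFunc.C (c κ)) *
          hz n (RatFunc E) D (mon (RatFunc E) (act B (κ : Fin n → ℕ))) := by
        rw [map_mul, map_C, e3]
      rw [nkF_monomial, e4, homD_monomial, e5]
      change hz n (RatFunc E) D (C _ * mon (RatFunc E) (act B (κ : Fin n → ℕ))) = _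
      rw [hz_Cmul]
      conv_rhs => rw [← mul_assoc, ← C_mul]
      congr 2
      rw [e1, e1, hc]
      simp only [RingHom.comp_apply, map_mul, map_inv₀]
      ring

end Pool.CM.EG
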