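import Pool.Agent.H63.CUBE.FinStmts

set_option autoImplicit false

/-!
# MP_47888e_al, cube project: `DegStmt` and `NatStmt`
-/

open Finset MvPolynomial

namespace Pool.CM.EG

open Pool.CM Pool.H93.Cube Pool.CUBE Pool.H44.Cube

section
variable {n : ℕ} {E : Type} [CommRing E]

theorem hz_eq (d : ℕ) (P : MvPolynomial (Fin n) E) (S : Finset (Fin n →₀ ℕ))
    (hS : P.support ⊆ S) : hz n E d P = ∑ κ ∈ S, C (P.coeff κ) *
      (SZ (n + 1) E ^ (d - ∑ i, κ i) * ∏ l : Fin n, H44.Cube.cc (n + 1) E l.succ ^ κ l) := by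
  refine Finset.sum_subset hS fun κ _ hκ => ?_
  rw [notMem_support_iff.1 hκ, C_0, zero_mul]

theorem map_SZ {E' : Type} [CommRing E'] (f : E →+* E') (m : ℕ) :
    map f (SZ m E) = SZ m E' := by
  rw [SZ, SZ, map_sum]
  exact Finset.sum_congr rfl fun i _ => map_X f i

theorem map_cc {E' : Type} [CommRing E'] (f : E →+* E') (m : ℕ) (l : Fin m) :
    map f (H44.Cube.cc m E l) = H44.Cube.cc m E' l := by
  rw [H44.Cube.cc, H44.Cube.cc, map_sum]
  exact Finset.sum_congr rfl fun i _ => map_X f i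

theorem map_hz {E' : Type} [CommRing E'] (f : E →+* E') (d : ℕ) (P : MvPolynomial (Fin n) E) :
    map f (hz n E d P) = hz n E' d (map f P) := by
  rw [hz_eq d (map f P) P.support (support_map_subset f P), hz, map_sum]
  refine Finset.sum_congr rfl fun κ _ => ?_
  rw [map_mul, map_mul, map_pow, map_prod, map_C, coeff_map, map_SZ]
  congr 2
  exact Finset.prod_congr rfl fun l _ => by rw [map_pow, map_cc]

theorem map_mon {E' : Type} [CommRing E'] (f : E →+* E') (v : Fin n → ℕ) :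
    map f (mon E v) = mon E' v := by
  rw [mon, mon, map_monomial, map_one]

theorem deg_mon (v : Fin n → ℕ) {κ : Fin n →₀ ℕ} (h : κ ∈ (mon E v).support) :
    ∑ i, κ i = ∑ i, v i := by
  have h1 := support_monomial_subset h
  rw [Finset.mem_singleton] at h1
  rw [h1]
  exact Finset.sum_congr rfl fun i _ => rfl

theorem hom_Wt {D N : ℕ} {g : Poly n E} (h : g.IsHomogeneous D) (hN : D + (n + 1) = N) :
    Wt N g := by
  intro a ha
  rw [GFL.hom_deg h ha, hN]

end

theorem deg_thm : DegStmt := by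
  classical
  intro K _ n B g
  obtain ⟨D1, hD1⟩ : ∃ D1 : ℕ, ∀ κ ∈ g.support, ∑ l, act B (κ : Fin n → ℕ) l ≤ D1 :=
    ⟨g.support.sup fun κ => ∑ l, act B (κ : Fin n → ℕ) l, fun κ hκ =>
      Finset.le_sup (f := fun κ : Fin n →₀ ℕ => ∑ l, act B (κ : Fin n → ℕ) l) hκ⟩
  refine ⟨D1 + (∑ l, (act B (fun _ => 1) l - 1) + (n + 1)), fun D hD E _ ι ϑ => ⟨?_, ?_⟩⟩
  · refine hom_Wt (hz_isHomogeneous (d := D - (n + 1)) ?_) (by omega)
    intro κ hκ
    have h1 : ∑ i, κ i = ∑ l, (act B (fun _ => 1) l - 1) := deg_mon _ hκ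
    omega
  · refine hz_isHomogeneous ?_
    intro κ hκ
    have h1 : κ ∈ g.support.biUnion fun κ => (C (ι (g.coeff κ) * ∏ i, ϑ i ^ κ i) *
        mon E (act B (κ : Fin n → ℕ)) : MvPolynomial (Fin n) E).support :=
      support_sum hκ
    rw [Finset.mem_biUnion] at h1
    obtain ⟨κ', hκ', h2⟩ := h1
    have h3 : κ ∈ (mon E (act B (κ' : Fin n → ℕ))).support := by
      rw [mem_support_iff, coeff_C_mul] at h2
      rw [mem_support_iff]
      exact right_ne_zero_of_mul h2
    rw [deg_mon _ h3]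
    have := hD1 κ' hκ'
    omega

theorem nat_thm : NatStmt := by
  intro K E E' _ _ _ n D B g ι f ϑ
  refine ⟨?_, ?_⟩
  · have h1 : map f (H44.Cube.wt E B) = H44.Cube.wt E' B := map_mon f _
    rw [cW, cW, map_hz, h1]
  · rw [cellN, cellN, map_hz]
    congr 1
    rw [cellG, cellG, map_sum]
    refine Finset.sum_congr rfl fun κ _ => ?_
    rw [map_mul, map_C, map_mon]
    congr 2
    rw [map_mul, map_prod]
    congr 1
    exact Finset.prod_congr rfl fun i _ => map_pow f _ _

end Pool.CM.EG
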