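import Pool.Agent.H10.CM.FStmts

set_option autoImplicit false

/-!
# MP_47888e_al, block FIELDS: the complexity filtration generated by finitely many fixed elements
-/

open Polynomial

namespace Pool.CM

/-- LEMMA CX. For every finite set `S` of fixed elements there is a filtration `Cx i m` of subrings
of the valuation rings, generated by `S` in degree `1` and `φ(S)` in degree `p`, with
`Cx i (p C) ⊆ t i (p c C)`. The elements `s⁻¹`, `s ∈ S`, may be put in `S`. -/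
def CXStmt : Prop := ∀ (X : Idx) (E : Type) [Field E] (A : PF X E), A.Ax → ∀ S : Finset E,
  ∃ (Cx : X.I → ℕ → AddSubgroup E) (c : ℕ), X.Ev fun i =>
    (∀ m x, x ∈ Cx i m → x ∈ A.O i) ∧
    (∀ m m', m ≤ m' → Cx i m ≤ Cx i m') ∧
    (1 : E) ∈ Cx i 0 ∧
    (∀ a b x y, x ∈ Cx i a → y ∈ Cx i b → x * y ∈ Cx i (a + b)) ∧
    (∀ n : ℕ, ¬ X.p i ∣ n → ∀ m x, x ∈ Cx i m → ((n : E))⁻¹ * x ∈ Cx i m) ∧
    (∀ m x, x ∈ A.O i → (X.p i : E) * x ∈ Cx i m → x ∈ Cx i m) ∧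
    (∀ x ∈ S, x ∈ Cx i 1) ∧
    (∀ x ∈ S, A.phi i x ∈ Cx i (X.p i)) ∧
    (∀ C x, x ∈ Cx i (X.p i * C) → x ∈ A.t i (X.p i * (c * C))) ∧
    (∀ m j x, x ∈ Cx i m → A.D j x ∈ Cx i (m + X.p i + 1))

end Pool.CM
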