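import Pool.Agent.H10.CM.T2Defs
import Pool.Agent.H93.CUBE.LStmts

set_option autoImplicit false

/-!
# MP_47888e_al, cube project: compatible rows pass to the limit (`FunStmt`)
-/

open Polynomial

namespace Pool.CM.T2

open Pool.CM Pool.H93.Cube

/-- `funlim` of helper91 with the order bound `KK` chosen first -/
def FunLimStmt : Prop := ∀ (X : Idx) (E : Type) [Field E] (A : PF X E), A.Ax → A.ext.Ax →
  ∀ (K : Type) [CommRing K] (T : FUN.TG A K), T.Rg →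
  ∀ (m u : Type) [Fintype m] [Fintype u] [DecidableEq u]
    (Z Z' : Matrix m u (LaurentSeries E)), Z'.transpose * Z = 1 →
  ∀ (x : u → K) (δ : m → LaurentSeries K),
    (∀ a, δ a = ∑ b, FUN.mapL T.ι (Z' a b) * HahnSeries.C (x b)) →
    ∃ KK : ℤ, ∀ C1 C1' : ℕ, ∃ C2 : ℕ, ∀ C3 : ℕ, X.Ev fun i => ∀ (n M : ℕ) (L : ℤ),
      ((C2 * X.p i : ℕ) : ℤ) ≤ L → L ≤ (C3 : ℤ) * X.p i →
      ∀ (Ph : Matrix m m (RatFunc E)) (PhH : Matrix u u E),
      FUN.MC (T.lau All.xph) i n M L (C1 * X.p i) δ Ph →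
      (∀ a b, PhH a b ∈ A.t i (C1' * X.p i)) →
      CongT (A.O i) (X.p i) M KK
        (Ph.map (ex E) * Z'.map (Pool.H93.Cube.phiL (A.phi i) (X.p i) (X.hp i).ne_zero))
        (Z' * cM PhH) →
      FUN.MC T i n M (L - ((C2 * X.p i : ℕ) : ℤ)) (C2 * X.p i) x PhH

variable {X : Idx} {E : Type} [Field E]

theorem frob_mono {A : PF X E} (hA : A.Ax) {m : Type} [Fintype m] [DecidableEq m]
    {G : A.J → Matrix m m E} {chi : m → E} {e : m} {n : ℕ} {i : X.I} {M C C' : ℕ}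
    {Phi Phi' : Matrix m m E} (h : Frob A G chi e n i M C Phi Phi') (hC : C ≤ C') :
    Frob A G chi e n i M C' Phi Phi' where
  t1 a b := (All.tcl X E A hA i).2.1 _ _ (Nat.mul_le_mul_right _ hC) (h.t1 a b)
  t2 a b := (All.tcl X E A hA i).2.1 _ _ (Nat.mul_le_mul_right _ hC) (h.t2 a b)
  m1 := h.m1
  m2 := h.m2
  h1 := h.h1
  h2 := h.h2
  col := h.col
  gap := h.gap

theorem mc_mono {A : PF X E} (hA : A.Ax) {K : Type} [CommRing K] {T : FUN.TG A K} {i : X.I}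
    {n M M' d d' : ℕ} {L L' : ℤ} {N : Type} [Fintype N] {δ : N → K} {Ph : Matrix N N E}
    (h : FUN.MC T i n M L d δ Ph) (hM : M' ≤ M) (hL : L' ≤ L) (hd : d ≤ d') :
    FUN.MC T i n M' L' d' δ Ph := by
  obtain ⟨h0, h1, h2, h3⟩ := h
  exact ⟨h0, hA.den_mono i _ _ hd h1, fun b c => hA.pol_mono i _ _ hd (h2 b c),
    fun b => T.anti i _ _ _ _ hM hL (h3 b)⟩

/-- FUN + LIMIT -/
theorem funStmt (hL : FunLimStmt) (hT : TRAStmt) (hP : LPKStmt) : FunStmt := by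
  intro X E _ A hA hJ m _ _ G chi e n hPk u _ _ e' d
  refine ⟨(hP X E A hA hJ m G chi e n hPk u e' d).2, ?_⟩
  intro K _ T hTR x δ hδ hC M
  have hA1 : A.ext.Ax := All.ext X E A hA
  obtain ⟨c, hc⟩ := hT X E A hA hJ m G chi e n hPk u e' d
  obtain ⟨KK, hKK⟩ := hL X E A hA hA1 K T hTR m u d.Z d.Z' d.ZZ x δ hδ
  obtain ⟨C1, hC1⟩ := hC (M + c)
  obtain ⟨C2, hC2⟩ := hc M C1 KK.toNat
  obtain ⟨C4, hC4⟩ := hKK C1 C2
  refine ⟨C2 + C4, fun C3 => ?_⟩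
  refine (((hC1 (C3 + C4)).and hC2).and (hC4 (C3 + C4))).mono ?_
  rintro i ⟨⟨⟨Phi, Phi', hF, hM⟩, h2⟩, h4⟩
  obtain ⟨PhiH, PhiH', hF2, hc1, hc2⟩ := h2 Phi Phi' hF
  refine ⟨PhiH, PhiH', frob_mono hA hF2 (Nat.le_add_right _ _), ?_⟩
  have h5 := h4 n M (((C3 + C4 : ℕ) : ℤ) * X.p i) ?_ le_rfl Phi' PhiH'
    (mc_mono hA1 hM (Nat.le_add_right _ _) le_rfl le_rfl) hF2.t2 ?_
  · refine mc_mono hA h5 le_rfl ?_ (Nat.mul_le_mul_right _ (Nat.le_add_left _ _))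
    push_cast
    linarith
  · push_cast
    nlinarith [Int.natCast_nonneg (X.p i), Int.natCast_nonneg C3]
  · intro a b k hk
    exact hc2 a b k (lt_of_lt_of_le hk (Int.self_le_toNat KK))

end Pool.CM.T2
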