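import Pool.Agent.H10.CM.FunStep
import Pool.Agent.H93.CUBE.LimAll
import Pool.Agent.H91.CUBE.FunLimStmt

set_option autoImplicit false

/-!
# MP_47888e_al, cube project: limits of packages, without hypotheses
-/

namespace Pool.CM.T2

theorem fun_all : FunStmt :=
  funStmt Pool.CM.FUN.funLimStmt Pool.H93.Cube.LimAll.tra Pool.H93.Cube.LimAll.lpk

end Pool.CM.T2
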