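import Pool.Agent.H10.CM.All

set_option autoImplicit false

/-!
# MP_47888e_al, cube project: generic elements

`Gen ι θ` : `E` is the field of rational functions over `K` in the elements `θ i`.
-/

open MvPolynomial

namespace Pool.CM.Gn

/-- `E = K(θ)`, `θ` algebraically independent -/
structure Gen {K E : Type} [Field K] [Field E] {n : ℕ} (ι : K →+* E) (θ : Fin n → E) : Prop where
  ind : ∀ p : MvPolynomial (Fin n) K, eval₂ ι θ p = 0 → p = 0
  gen : ∀ x : E, ∃ p q : MvPolynomial (Fin n) K, eval₂ ι θ q ≠ 0 ∧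
    x * eval₂ ι θ q = eval₂ ι θ p

section
variable {K E L : Type} [Field K] [Field E] [Field L] {n : ℕ}

theorem Gen.nonzero {ι : K →+* E} {θ : Fin n → E} (h : Gen ι θ) {p : MvPolynomial (Fin n) K}
    (hp : p ≠ 0) : eval₂ ι θ p ≠ 0 := fun h0 => hp (h.ind p h0)

/-- The universal property. -/
theorem Gen.lift {ι : K →+* E} {θ : Fin n → E} (h : Gen ι θ) (j : K →+* L) (t : Fin n → L)
    (ht : ∀ p : MvPolynomial (Fin n) K, eval₂ j t p = 0 → p = 0) :
    ∃ κ : E →+* L, (∀ x, κ (ι x) = j x) ∧ ∀ i, κ (θ i) = t i := by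
  classical
  let _ : Algebra (MvPolynomial (Fin n) K) E := (eval₂Hom ι θ).toAlgebra
  have hmap : ∀ p, algebraMap (MvPolynomial (Fin n) K) E p = eval₂ ι θ p := fun p => rfl
  have hinj : Function.Injective (algebraMap (MvPolynomial (Fin n) K) E) := by
    rw [injective_iff_map_eq_zero]
    exact fun p hp => h.ind p hp
  have hloc : IsFractionRing (MvPolynomial (Fin n) K) E := by
    refine ⟨?_, ?_, ?_⟩
    · rintro ⟨y, hy⟩
      exact isUnit_iff_ne_zero.2 ((map_ne_zero_iff _ hinj).2 (nonZeroDivisors.ne_zero hy))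
    · intro x
      obtain ⟨p, q, hq, e⟩ := h.gen x
      have hq0 : q ≠ 0 := by
        rintro rfl
        exact hq (by simp)
      exact ⟨⟨p, ⟨q, mem_nonZeroDivisors_of_ne_zero hq0⟩⟩, e⟩
    · intro x y hxy
      exact ⟨1, by rw [hinj hxy]⟩
  have hj : Function.Injective (eval₂Hom j t) := by
    rw [injective_iff_map_eq_zero]
    exact fun p hp => ht p hp
  refine ⟨IsFractionRing.lift hj, fun x => ?_, fun i => ?_⟩
  · have h1 : ι x = algebraMap (MvPolynomial (Fin n) K) E (C x) := by
      rw [hmap, eval₂_C]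
    rw [h1, IsFractionRing.lift_algebraMap]
    exact eval₂_C _ _ _
  · have h1 : θ i = algebraMap (MvPolynomial (Fin n) K) E (X i) := by
      rw [hmap, eval₂_X]
    rw [h1, IsFractionRing.lift_algebraMap]
    exact eval₂_X _ _ _

/-- one more variable -/
theorem Gen.succ {ι : K →+* E} {θ : Fin n → E} (h : Gen ι θ) :
    Gen ((RatFunc.C (K := E)).comp ι)
      (Fin.cases (RatFunc.X : RatFunc E) fun i => RatFunc.C (θ i)) := by
  classical
  -- polynomials in one variable over `E`
  let Q : MvPolynomial (Fin (n + 1)) K →+* Polynomial E :=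
    eval₂Hom (Polynomial.C.comp ι) (Fin.cases Polynomial.X fun i => Polynomial.C (θ i))
  have hQ : ∀ p : MvPolynomial (Fin (n + 1)) K,
      eval₂ ((RatFunc.C (K := E)).comp ι)
        (Fin.cases (RatFunc.X : RatFunc E) fun i => RatFunc.C (θ i)) p =
      algebraMap (Polynomial E) (RatFunc E) (Q p) := by
    intro p
    have h1 : (eval₂Hom ((RatFunc.C (K := E)).comp ι)
        (Fin.cases (RatFunc.X : RatFunc E) fun i => RatFunc.C (θ i))) =
        (algebraMap (Polynomial E) (RatFunc E)).comp Q := by
      apply MvPolynomial.ringHom_ext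
      · intro r
        simp [Q, RatFunc.algebraMap_C]
      · intro i
        refine Fin.cases ?_ (fun i => ?_) i
        · simp [Q, RatFunc.algebraMap_X]
        · simp [Q, RatFunc.algebraMap_C]
    exact RingHom.congr_fun h1 p
  have hQ2 : ∀ p : MvPolynomial (Fin (n + 1)) K,
      Q p = Polynomial.map (eval₂Hom ι θ) (MvPolynomial.finSuccEquiv K n p) := by
    intro p
    induction p using MvPolynomial.induction_on with
    | C r =>
      have h0 := RingHom.congr_fun (finSuccEquiv_comp_C_eq_C (R := K) n) r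
      have h1 : MvPolynomial.finSuccEquiv K n (C r) = Polynomial.C (C r) := by
        rw [← h0]
        exact (MvPolynomial.finSuccEquiv K n).apply_symm_apply _
      rw [h1]
      simp [Q]
    | add p q hp hq => rw [map_add, map_add, Polynomial.map_add, hp, hq]
    | mul_X p i hp =>
      rw [map_mul, map_mul, Polynomial.map_mul, hp]
      congr 1
      refine Fin.cases ?_ (fun i => ?_) i
      · rw [finSuccEquiv_X_zero]
        simp [Q]
      · rw [finSuccEquiv_X_succ]
        simp [Q]
  have hQ0 : ∀ p : MvPolynomial (Fin (n + 1)) K, Q p = 0 → p = 0 := by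
    intro p hp
    have h1 : MvPolynomial.finSuccEquiv K n p = 0 := by
      apply Polynomial.ext
      intro k
      apply h.ind
      have h2 : (Q p).coeff k = 0 := by rw [hp, Polynomial.coeff_zero]
      rw [hQ2, Polynomial.coeff_map] at h2
      exact h2
    exact (map_eq_zero_iff _ (MvPolynomial.finSuccEquiv K n).injective).1 h1
  have hC : ∀ q : MvPolynomial (Fin n) K, Q (rename Fin.succ q) =
      Polynomial.C (eval₂ ι θ q) := by
    intro q
    have h1 : Q.comp (rename Fin.succ : MvPolynomial (Fin n) K →ₐ[K] _).toRingHom =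
        Polynomial.C.comp (eval₂Hom ι θ) := by
      apply MvPolynomial.ringHom_ext
      · intro r
        simp [Q]
      · intro i
        simp [Q]
    exact RingHom.congr_fun h1 q
  have hX : Q (X 0) = Polynomial.X := by simp [Q]
  -- clearing denominators
  have hcl : ∀ g : Polynomial E, ∃ (p : MvPolynomial (Fin (n + 1)) K)
      (q : MvPolynomial (Fin n) K), q ≠ 0 ∧ Polynomial.C (eval₂ ι θ q) * g = Q p := by
    intro g
    induction g using Polynomial.induction_on' with
    | add g1 g2 h1 h2 =>
      obtain ⟨p1, q1, hq1, e1⟩ := h1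
      obtain ⟨p2, q2, hq2, e2⟩ := h2
      refine ⟨rename Fin.succ q2 * p1 + rename Fin.succ q1 * p2, q1 * q2, mul_ne_zero hq1 hq2, ?_⟩
      rw [map_add, map_mul, map_mul, hC, hC, ← e1, ← e2, eval₂_mul, Polynomial.C_mul]
      ring
    | monomial k a =>
      obtain ⟨p, q, hq, e⟩ := h.gen a
      refine ⟨rename Fin.succ p * X 0 ^ k, q, ?_, ?_⟩
      · rintro rfl
        exact hq (by simp)
      · rw [map_mul, map_pow, hC, hX, ← e, ← Polynomial.C_mul_X_pow_eq_monomial, Polynomial.C_mul]
        ring
  constructor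
  · intro p hp
    rw [hQ] at hp
    exact hQ0 p ((map_eq_zero_iff _ (IsFractionRing.injective (Polynomial E) (RatFunc E))).1 hp)
  · intro x
    obtain ⟨g, d, hd, rfl⟩ := IsFractionRing.div_surjective (A := Polynomial E) x
    have hd0 : d ≠ 0 := nonZeroDivisors.ne_zero hd
    have hd1 : algebraMap (Polynomial E) (RatFunc E) d ≠ 0 :=
      (map_ne_zero_iff _ (IsFractionRing.injective (Polynomial E) (RatFunc E))).2 hd0
    obtain ⟨p1, q1, hq1, e1⟩ := hcl g
    obtain ⟨p2, q2, hq2, e2⟩ := hcl d
    refine ⟨rename Fin.succ q2 * p1, rename Fin.succ q1 * p2, ?_, ?_⟩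
    · rw [hQ, map_mul, hC, ← e2]
      refine (map_ne_zero_iff _ (IsFractionRing.injective (Polynomial E) (RatFunc E))).2
        (mul_ne_zero ?_ (mul_ne_zero ?_ hd0))
      · exact Polynomial.C_ne_zero.2 (h.nonzero hq1)
      · exact Polynomial.C_ne_zero.2 (h.nonzero hq2)
    · rw [hQ, hQ, map_mul Q, map_mul Q, hC, hC, ← e1, ← e2]
      simp only [map_mul]
      field_simp

/-- independence of the side lengths `b_i τ ^ w_i`, `1 - b_i τ ^ w_i` -/
theorem Gen.sides {ι : K →+* E} {b : Fin n → E} (h : Gen ι b) (w : Fin n → ℕ)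
    (ε : Fin n → Bool) (p : MvPolynomial (Fin n) K)
    (hp : eval₂ ((RatFunc.C (K := E)).comp ι) (fun i => if ε i then
      1 - RatFunc.C (b i) * (RatFunc.X : RatFunc E) ^ w i else RatFunc.C (b i) * RatFunc.X ^ w i)
      p = 0) : p = 0 := by
  classical
  let Q : MvPolynomial (Fin n) K →+* Polynomial E :=
    eval₂Hom (Polynomial.C.comp ι) (fun i => if ε i then
      1 - Polynomial.C (b i) * Polynomial.X ^ w i else Polynomial.C (b i) * Polynomial.X ^ w i)
  have h1 : (eval₂Hom ((RatFunc.C (K := E)).comp ι) (fun i => if ε i then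
      1 - RatFunc.C (b i) * (RatFunc.X : RatFunc E) ^ w i else RatFunc.C (b i) * RatFunc.X ^ w i)) =
      (algebraMap (Polynomial E) (RatFunc E)).comp Q := by
    apply MvPolynomial.ringHom_ext
    · intro r
      simp [Q, RatFunc.algebraMap_C]
    · intro i
      by_cases hi : ε i <;> simp [Q, hi, RatFunc.algebraMap_C, RatFunc.algebraMap_X]
  have h2 : algebraMap (Polynomial E) (RatFunc E) (Q p) = 0 := by
    rw [← hp]
    exact (RingHom.congr_fun h1 p).symm
  have h3 : Q p = 0 :=
    (map_eq_zero_iff _ (IsFractionRing.injective (Polynomial E) (RatFunc E))).1 h2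
  let fl : MvPolynomial (Fin n) K →ₐ[K] MvPolynomial (Fin n) K :=
    aeval fun i => if ε i then 1 - X i else X i
  have h4 : (Polynomial.evalRingHom 1).comp Q = (eval₂Hom ι b).comp fl.toRingHom := by
    apply MvPolynomial.ringHom_ext
    · intro r
      simp [Q, fl]
    · intro i
      by_cases hi : ε i <;> simp [Q, fl, hi]
  have h5 : eval₂ ι b (fl p) = 0 := by
    have h6 := RingHom.congr_fun h4 p
    rw [RingHom.comp_apply, h3, map_zero] at h6
    exact h6.symm
  have h6 : fl p = 0 := h.ind _ h5
  have h7 : fl (fl p) = p := by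
    have h8 : fl.comp fl = AlgHom.id K _ := by
      apply MvPolynomial.algHom_ext
      intro i
      by_cases hi : ε i <;> simp [fl, hi]
    exact congrArg (fun f : MvPolynomial (Fin n) K →ₐ[K] MvPolynomial (Fin n) K => f p) h8
  rw [← h7, h6, map_zero]

/-- no generic elements -/
theorem Gen.zero : Gen (RingHom.id K) (Fin.elim0 : Fin 0 → K) := by
  have h1 : ∀ p : MvPolynomial (Fin 0) K, eval₂ (RingHom.id K) (Fin.elim0 : Fin 0 → K) p =
      p.coeff 0 := by
    intro p
    have h2 : p = C (p.coeff 0) := by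
      conv_lhs => rw [MvPolynomial.eq_C_of_isEmpty p]
    rw [h2, eval₂_C]
    simp
  constructor
  · intro p hp
    rw [h1] at hp
    rw [MvPolynomial.eq_C_of_isEmpty p, hp, C_0]
  · intro x
    exact ⟨C x, 1, by simp, by simp⟩

end

/-- The tower of PF fields with `n` generic elements. -/
theorem tower (K : Type) [Field K] [NumberField K] (n : ℕ) :
    ∃ (E : Type) (_ : Field E) (_ : CharZero E) (A : PF (idxK K embStmt) E) (ι : K →+* E)
      (θ : Fin n → E), A.Ax ∧ Finite A.J ∧ Gen ι θ := by
  induction n with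
  | zero =>
    refine ⟨K, inferInstance, inferInstance, PF.base K embStmt, RingHom.id K, Fin.elim0,
      All.base K embStmt, ?_, Gen.zero⟩
    exact inferInstanceAs (Finite Empty)
  | succ n ih =>
    obtain ⟨E, _, hE, A, ι, θ, hA, hJ, hG⟩ := ih
    refine ⟨RatFunc E, inferInstance, ?_, A.ext, (RatFunc.C (K := E)).comp ι, _,
      All.ext _ E A hA, inferInstanceAs (Finite (Option A.J)), hG.succ⟩
    exact charZero_of_injective_algebraMap (RatFunc.C_injective (K := E))

end Pool.CM.Gn
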