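import Pool.Agent.H38.CUBE.JJStmts2
import Pool.Agent.H10.CM.All

set_option autoImplicit false

/-!
# MP_47888e_al, cube project: expansion and Frobenius (`PHTStmt`)
-/

namespace Pool.CM.T2

open Pool.CM Pool.H93.Cube Pool.CUBE

theorem pht10 : PHTStmt := by
  intro X E _ A i x
  have h1 : ∀ z : RatFunc E, FUN.phiL (A.phi i) (X.p i) (X.hp i).pos (ex E z) =
      ex E (A.ext.phi i z) := fun z => (FUN.ex_phiL A All.xph i z).symm
  have h2 : ∀ y : RatFunc (RatFunc E),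
      FUN.phiL (FUN.phiL (A.phi i) (X.p i) (X.hp i).pos) (X.p i) (X.hp i).pos
        (FUN.mapL (ex E) (ex (RatFunc E) y)) =
      FUN.mapL (ex E) (ex (RatFunc E) (A.ext.ext.phi i y)) := by
    intro y
    rw [FUN.phiL_mapL _ (ex E) (A.ext.phi i) h1, ← FUN.ex_phiL A.ext All.xph i y]
  have h3 := FUN.phiL_mapL (FUN.phiL (FUN.phiL (A.phi i) (X.p i) (X.hp i).pos) (X.p i)
    (X.hp i).pos) ((FUN.mapL (ex E)).comp (ex (RatFunc E))) (A.ext.ext.phi i) h2 (X.p i)
    (X.hp i).pos (ex (RatFunc (RatFunc E)) x)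
  rw [← FUN.ex_phiL A.ext.ext All.xph i x] at h3
  exact h3

end Pool.CM.T2
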