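import Pool.Agent.H38.CUBE.JJAll1
import Pool.Agent.H38.CUBE.F_AFR
import Pool.Agent.H38.CUBE.F_FROB
import Pool.Agent.H38.CUBE.F_JPR
import Pool.Agent.H38.CUBE.F_MCJ
import Pool.Agent.H33.CUBE.F_FRO
import Pool.Agent.H33.CUBE.F_MLF
import Pool.Agent.H34.CUBE.F_SEC
import Pool.Agent.H4.CUBE.F_RHO
import Pool.Agent.H46.CUBE.F_HIN
import Pool.Agent.H49.CUBE.F_PAC
import Pool.Agent.H49.CUBE.F_RSC
import Pool.Agent.H62.CUBE.F_FIXR
import Pool.Agent.H7.CUBE.F_CFJ
import Pool.Agent.H7.CUBE.F_FROE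
import Pool.Agent.H81.CUBE.F_BPX
import Pool.Agent.H81.CUBE.F_INTP
import Pool.Agent.H81.CUBE.F_IOJ
import Pool.Agent.H83.CUBE.F_ACT
import Pool.Agent.H84.CUBE.F_MPA
import Pool.Agent.H87.CUBE.F_RJP
import Pool.Agent.H95.CUBE.F_MPP
import Pool.Agent.H95.CUBE.F_RRPA
import Pool.Agent.H99.CUBE.F_X1H
import Pool.Agent.H53.CUBE.JF
import Pool.Agent.H41.CUBE.JAll
import Pool.Agent.H10.CM.Pht

set_option autoImplicit false

/-!
# MP_47888e_al, cube project: the last block (Frobenius compatibility of the corner functional)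
without hypotheses
-/

namespace Pool.CM.JJFin

open Pool.CUBE

theorem jf : JFStmt := JF_proof JAll.f1 JAll.f2 JAll.iob
theorem jfs : JFSStmt := JAll.jfs_of jf
theorem rsc : RSCStmt := rsc_thm
theorem pac : PACStmt := pac_thm
theorem bpx : BPXStmt := bpx_thm pac
theorem mlf : MLFStmt := mlf_thm
theorem mpa : MPAStmt := mpa_thm mlf pac rsc
theorem intp : INTPStmt := intp_thm pac
theorem fro : FROStmt := fro_thm
theorem act : ACTStmt := act_thm
theorem pht : PHTStmt := Pool.CM.T2.pht10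
theorem x1h : Corner.X1HStmt := x1h_thm
theorem ioj : Corner.IOJStmt := Corner.ioj_thm
theorem mpp : Corner.MPPStmt := Corner.mpp_thm
theorem rho : Corner.RHOStmt := rho_thm fro x1h
theorem afr : Corner.AFRStmt := afr_thm jfs ioj fro x1h rho
theorem sec : Corner.SECStmt := sec_thm JJAll.rc rsc
theorem hin : Corner.HINStmt := hin_thm
theorem rrpa : Corner.RRPAStmt := Corner.rrpa_thm pac bpx mpa hin rsc
theorem fixr : Corner.FIXRStmt := fixr_thm rsc
theorem rjp : Corner.RJPStmt := RJP_thm rho fixr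
theorem cfj : Corner.CFJStmt := cfj_thm act JJAll.del
theorem frob : Corner.FROBStmt := frob_thm cfj afr sec rrpa rjp intp rsc JJAll.rc JJAll.evr mpp
  pac rho
theorem jpr : Corner.JPRStmt := jpr_thm pht JJAll.rel JJAll.lin JJAll.lv
theorem froe : Corner.FROEStmt := froe_thm frob jpr mpp act JJAll.lin x1h
theorem mcj : Corner.MCJStmt := mcj_thm frob froe jpr

end Pool.CM.JJFin
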