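import Pool.Agent.H10.CM.T2C
import Pool.Agent.H38.CUBE.JJStmts2

set_option autoImplicit false

/-!
# MP_47888e_al, cube project: the Frobenius compatibility of the corner functional in the form
used for T2
-/

namespace Pool.CM.T2

open Pool.CM Pool.H93.Cube Pool.CUBE

theorem jmc_of (h : Corner.MCJStmt) : JMCStmt := by
  intro X E _ _ A hA n K N _ _ b l co hco hb M hM
  obtain ⟨C, hC⟩ := h X E A hA n K N b l co hco hb M hM
  refine ⟨C, fun C3 => (hC C3).mono ?_⟩
  intro i hi
  exact hi

end Pool.CM.T2
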