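import Pool.Agent.H63.CUBE.Main
import Pool.Agent.H10.CM.Jmc
import Pool.Agent.H10.CM.JJFin

set_option autoImplicit false

/-!
# MP_47888e_al: the core statement of the cube conjecture

A polynomial over a number field all of whose positive powers are killed by the cube functional
is zero.
-/

namespace Pool.CM

open Pool.CUBE

theorem jj_facts : T2.JJFacts where
  rel := JJAll.rel
  lin := JJAll.lin
  nl := JJAll.nl
  ns := JJAll.ns
  top := JJAll.top
  pos := JJAll.pos
  e := JJAll.e
  mc := T2.jmc_of JJFin.mcj

/-- **The core statement.** -/
theorem core_all : CoreStmt := EG.core_of JJFin.jf jj_facts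

end Pool.CM
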