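import Mathlib

set_option autoImplicit false

/-!
# MP_47888e_al, block FIELDS: places, PF fields, the tower `E ↦ E(x)`

* `Idx` : index set of places (a prime number for each index, unbounded), `X.Ev S` = for almost
  all primes.
* `PF X E` : the data on a field `E` (for every place: valuation ring `O`, Frobenius lift `phi`,
  filtration by degree `pol`, admissible denominators `den`; a family of commuting derivations `D`),
  `A.Ax` : the axioms.
* `A.t i d` : fractions `g / h`, `g ∈ pol i d`, `h ∈ den i d`.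
* `PF.base K` : a number field; `A.ext : PF X (RatFunc E)` : one more variable.
* `ex : RatFunc E →+* LaurentSeries E` : the expansion at `0`.
-/

open Polynomial

namespace Pool.CM

/-! ### Places -/

/-- An index set of places: a prime number `p i` for each index, the primes are unbounded. -/
structure Idx where
  I : Type
  p : I → ℕ
  hp : ∀ i, (p i).Prime
  unb : ∀ B : ℕ, ∃ i, B < p i

namespace Idx
variable (X : Idx)

/-- `S i` holds for all places over all sufficiently large primes. -/
def Ev (S : X.I → Prop) : Prop := ∃ B : ℕ, ∀ i, B < X.p i → S i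

variable {X}

theorem Ev.and {S T : X.I → Prop} (hS : X.Ev S) (hT : X.Ev T) : X.Ev fun i => S i ∧ T i := by
  obtain ⟨B, hB⟩ := hS
  obtain ⟨B', hB'⟩ := hT
  exact ⟨max B B', fun i hi => ⟨hB i (lt_of_le_of_lt (le_max_left _ _) hi),
    hB' i (lt_of_le_of_lt (le_max_right _ _) hi)⟩⟩

theorem Ev.mono {S T : X.I → Prop} (hS : X.Ev S) (h : ∀ i, S i → T i) : X.Ev T := by
  obtain ⟨B, hB⟩ := hS
  exact ⟨B, fun i hi => h i (hB i hi)⟩

theorem Ev.of_forall {S : X.I → Prop} (h : ∀ i, S i) : X.Ev S := ⟨0, fun i _ => h i⟩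

theorem Ev.large (B : ℕ) : X.Ev fun i => B < X.p i := ⟨B, fun _ h => h⟩

theorem Ev.all {ι : Type*} [Finite ι] {S : ι → X.I → Prop} (h : ∀ a, X.Ev (S a)) :
    X.Ev fun i => ∀ a, S a i := by
  have := Fintype.ofFinite ι
  choose B hB using h
  refine ⟨Finset.univ.sup B, fun i hi a => hB a i ?_⟩
  exact lt_of_le_of_lt (Finset.le_sup (Finset.mem_univ a)) hi

theorem Ev.allFinset {ι : Type*} (F : Finset ι) {S : ι → X.I → Prop} (h : ∀ a ∈ F, X.Ev (S a)) :
    X.Ev fun i => ∀ a ∈ F, S a i := by
  have h1 := Ev.all (X := X) (ι := F) (S := fun a => S a.1) (fun a => h a.1 a.2)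
  exact h1.mono fun i hi a ha => hi ⟨a, ha⟩

theorem Ev.exists {S : X.I → Prop} (hS : X.Ev S) (B : ℕ) : ∃ i, B < X.p i ∧ S i := by
  obtain ⟨B', hB'⟩ := hS
  obtain ⟨i, hi⟩ := X.unb (max B B')
  exact ⟨i, lt_of_le_of_lt (le_max_left _ _) hi, hB' i (lt_of_le_of_lt (le_max_right _ _) hi)⟩

end Idx

/-! ### PF fields -/

/-- The data of a PF field. -/
structure PF (X : Idx) (E : Type) [Field E] where
  /-- the valuation ring of the place -/
  O : X.I → Subring E
  /-- the Frobenius lift -/
  phi : X.I → E →+* E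
  /-- `integral polynomials of degree at most d` -/
  pol : X.I → ℕ → AddSubgroup E
  /-- admissible denominators of degree at most `d` -/
  den : X.I → ℕ → Set E
  /-- index type of the derivations -/
  J : Type
  /-- the derivations -/
  D : J → Derivation ℤ E E

namespace PF
variable {X : Idx} {E : Type} [Field E] (A : PF X E)

/-- units of the valuation ring -/
def Un (i : X.I) (x : E) : Prop := x ≠ 0 ∧ x ∈ A.O i ∧ x⁻¹ ∈ A.O i

/-- divisibility by `p ^ M` in the valuation ring -/
def Dv (i : X.I) (M : ℕ) (x : E) : Prop := ∃ y ∈ A.O i, x = (X.p i : E) ^ M * y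

/-- fractions of degree at most `d` -/
def t (i : X.I) (d : ℕ) : Set E := {x | ∃ g ∈ A.pol i d, ∃ h ∈ A.den i d, x * h = g}

/-- The axioms of a PF field. -/
structure Ax : Prop where
  /-- every nonzero element is a power of `p` times a unit -/
  scale : ∀ i (x : E), x ≠ 0 → ∃ k : ℤ, A.Un i (x * (X.p i : E) ^ k)
  p_inv : ∀ i, ((X.p i : ℕ) : E)⁻¹ ∉ A.O i
  phi_O : ∀ i x, x ∈ A.O i → A.phi i x ∈ A.O i
  phi_frob : ∀ i x, x ∈ A.O i → A.Dv i 1 (A.phi i x - x ^ X.p i)
  /-- fixed nonzero elements are units almost everywhere -/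
  pf2 : ∀ x : E, x ≠ 0 → X.Ev fun i => A.Un i x
  /-- heights -/
  pf4 : ∀ χ : E[X], χ ≠ 0 → ∃ c : ℕ, ∀ C : ℕ, X.Ev fun i => ∀ y : ℤ, |y| ≤ (C : ℤ) * X.p i →
    χ.eval (y : E) ≠ 0 → (X.p i : E) ^ c * (χ.eval (y : E))⁻¹ ∈ A.O i
  pol_O : ∀ i d x, x ∈ A.pol i d → x ∈ A.O i
  pol_mono : ∀ i d e, d ≤ e → A.pol i d ≤ A.pol i e
  pol_one : ∀ i, (1 : E) ∈ A.pol i 0
  pol_inv : ∀ i (n : ℕ), ¬ X.p i ∣ n → ((n : E))⁻¹ ∈ A.pol i 0
  pol_mul : ∀ i d e x y, x ∈ A.pol i d → y ∈ A.pol i e → x * y ∈ A.pol i (d + e)
  pol_sat : ∀ i d x, x ∈ A.O i → (X.p i : E) * x ∈ A.pol i d → x ∈ A.pol i d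
  pol_phi : ∀ i d x, x ∈ A.pol i d → A.phi i x ∈ A.pol i (X.p i * d)
  den_pol : ∀ i d x, x ∈ A.den i d → x ∈ A.pol i d
  den_un : ∀ i d x, x ∈ A.den i d → A.Un i x
  den_mono : ∀ i d e, d ≤ e → A.den i d ⊆ A.den i e
  den_one : ∀ i, (1 : E) ∈ A.den i 0
  den_mul : ∀ i d e x y, x ∈ A.den i d → y ∈ A.den i e → x * y ∈ A.den i (d + e)
  den_phi : ∀ i d x, x ∈ A.den i d → A.phi i x ∈ A.den i (X.p i * d)
  /-- fixed nonzero elements have bounded degree -/
  fixed : ∀ x : E, x ≠ 0 → ∃ d : ℕ, X.Ev fun i => ∃ g ∈ A.den i d, ∃ h ∈ A.den i d, x * h = g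
  D_O : ∀ i j x, x ∈ A.O i → A.D j x ∈ A.O i
  D_pol : ∀ i j d x, x ∈ A.pol i d → A.D j x ∈ A.pol i d
  D_phi : ∀ i j x, A.D j (A.phi i x) = (X.p i : E) * A.phi i (A.D j x)
  D_comm : ∀ j k x, A.D j (A.D k x) = A.D k (A.D j x)

end PF

/-! ### Number fields -/

/-- A place of `K`: a prime `p` and an embedding of `K` in `ℚ_p`. -/
structure PlaceK (K : Type) [Field K] where
  p : ℕ
  hp : Fact p.Prime
  ι : K →+* ℚ_[p]

attribute [instance] PlaceK.hp

/-- elements of `K` which are integral at `P` -/
noncomputable def PlaceK.O {K : Type} [Field K] (P : PlaceK K) : Subring K :=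
  (PadicInt.subring P.p).comap P.ι

/-- the statement that a number field has places over arbitrarily large primes
(proved in `Red2`) -/
def EmbStmt : Prop := ∀ (K : Type) [Field K] [NumberField K] (B : ℕ),
  ∃ p : ℕ, B < p ∧ ∃ _ : Fact p.Prime, Nonempty (K →+* ℚ_[p])

/-- the index set of places of a number field -/
noncomputable def idxK (K : Type) [Field K] [NumberField K] (h : EmbStmt) : Idx where
  I := PlaceK K
  p P := P.p
  hp P := P.hp.out
  unb B := by
    obtain ⟨p, hp, hf, ⟨ι⟩⟩ := h K B
    exact ⟨⟨p, hf, ι⟩, hp⟩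

/-- The PF structure of a number field. -/
noncomputable def PF.base (K : Type) [Field K] [NumberField K] (h : EmbStmt) :
    PF (idxK K h) K where
  O := fun P : PlaceK K => P.O
  phi := fun _ => RingHom.id K
  pol := fun (P : PlaceK K) _ => P.O.toAddSubgroup
  den := fun (P : PlaceK K) _ => {x | x ≠ 0 ∧ x ∈ P.O ∧ x⁻¹ ∈ P.O}
  J := Empty
  D := Empty.elim

/-! ### One more variable -/

section Frac

variable {R L : Type} [CommRing R] [IsDomain R] [Field L] [Algebra R L] [IsFractionRing R L]

/-- auxiliary ring hom `u ↦ u + ε d u` -/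
noncomputable def fdAux (d : Derivation ℤ R R) : R →+* TrivSqZeroExt L L where
  toFun u := TrivSqZeroExt.inl (algebraMap R L u) + TrivSqZeroExt.inr (algebraMap R L (d u))
  map_one' := by
    rw [map_one, Derivation.map_one_eq_zero, map_zero]
    ext <;> simp
  map_mul' u v := by
    have h : algebraMap R L (d (u * v)) =
        algebraMap R L u * algebraMap R L (d v) + algebraMap R L v * algebraMap R L (d u) := by
      rw [Derivation.leibniz, smul_eq_mul, smul_eq_mul, map_add, map_mul, map_mul]
    rw [h, map_mul]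
    generalize algebraMap R L u = u', algebraMap R L v = v', algebraMap R L (d u) = u'',
      algebraMap R L (d v) = v''
    ext
    · simp
    · simp
      ring
  map_zero' := by
    rw [map_zero, map_zero, map_zero]
    simp
  map_add' u v := by
    rw [map_add, map_add, map_add]
    generalize algebraMap R L u = u', algebraMap R L v = v', algebraMap R L (d u) = u'',
      algebraMap R L (d v) = v''
    ext <;> simp

omit [IsDomain R] [IsFractionRing R L] in
theorem fdAux_fst (d : Derivation ℤ R R) (u : R) :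
    (fdAux (L := L) d u).fst = algebraMap R L u := by
  change (TrivSqZeroExt.inl (algebraMap R L u) +
    TrivSqZeroExt.inr (algebraMap R L (d u))).fst = _
  generalize algebraMap R L u = u', algebraMap R L (d u) = u''
  simp

omit [IsDomain R] [IsFractionRing R L] in
theorem fdAux_snd (d : Derivation ℤ R R) (u : R) :
    (fdAux (L := L) d u).snd = algebraMap R L (d u) := by
  change (TrivSqZeroExt.inl (algebraMap R L u) +
    TrivSqZeroExt.inr (algebraMap R L (d u))).snd = _
  generalize algebraMap R L u = u', algebraMap R L (d u) = u''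
  simp

theorem fdAux_isUnit (d : Derivation ℤ R R) (u : nonZeroDivisors R) :
    IsUnit (fdAux (L := L) d (u : R)) := by
  rw [TrivSqZeroExt.isUnit_iff_isUnit_fst, fdAux_fst, isUnit_iff_ne_zero]
  intro h
  exact nonZeroDivisors.coe_ne_zero u ((IsFractionRing.injective R L) (by rw [h, map_zero]))

/-- the ring hom `x ↦ x + ε d x` of the fraction field -/
noncomputable def fdHom (d : Derivation ℤ R R) : L →+* TrivSqZeroExt L L :=
  IsLocalization.lift (M := nonZeroDivisors R) (fdAux_isUnit d)

theorem fdHom_algebraMap (d : Derivation ℤ R R) (u : R) :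
    fdHom (L := L) d (algebraMap R L u) = fdAux d u := IsLocalization.lift_eq _ _

theorem fdHom_fst (d : Derivation ℤ R R) (x : L) : (fdHom (R := R) d x).fst = x := by
  obtain ⟨u, w, hw, rfl⟩ := IsFractionRing.div_surjective (A := R) x
  have hw0 : algebraMap R L w ≠ 0 := by
    intro h
    exact nonZeroDivisors.coe_ne_zero ⟨w, hw⟩ ((IsFractionRing.injective R L)
      (by rw [h, map_zero]))
  have h1 : fdHom (R := R) d (algebraMap R L u / algebraMap R L w) *
      fdHom d (algebraMap R L w) = fdHom d (algebraMap R L u) := by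
    rw [← map_mul, div_mul_cancel₀ _ hw0]
  have h2 := congrArg TrivSqZeroExt.fst h1
  rw [TrivSqZeroExt.fst_mul, fdHom_algebraMap, fdHom_algebraMap, fdAux_fst, fdAux_fst] at h2
  exact (eq_div_iff hw0).2 h2

/-- the extension of a derivation to the fraction field -/
noncomputable def fd (d : Derivation ℤ R R) : Derivation ℤ L L :=
  Derivation.mk'
    (AddMonoidHom.toIntLinearMap
      { toFun := fun x => (fdHom (R := R) d x).snd
        map_zero' := by rw [map_zero]; simp
        map_add' := fun x y => by rw [map_add, TrivSqZeroExt.snd_add] })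
    (fun x y => by
      change (fdHom (R := R) d (x * y)).snd = x • (fdHom (R := R) d y).snd +
        y • (fdHom (R := R) d x).snd
      rw [map_mul, TrivSqZeroExt.snd_mul, fdHom_fst, fdHom_fst]
      simp only [smul_eq_mul, MulOpposite.smul_eq_mul_unop, MulOpposite.unop_op]
      ring)

theorem fd_algebraMap (d : Derivation ℤ R R) (u : R) :
    fd (L := L) d (algebraMap R L u) = algebraMap R L (d u) := by
  change (fdHom (R := R) d (algebraMap R L u)).snd = _
  rw [fdHom_algebraMap, fdAux_snd]

end Frac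

variable {E : Type} [Field E]

/-- a derivation of `E` acting on the coefficients of polynomials -/
noncomputable def dCoeff (d : Derivation ℤ E E) : Derivation ℤ E[X] E[X] :=
  Derivation.mk'
    (AddMonoidHom.toIntLinearMap
      { toFun := fun g => g.sum fun n a => monomial n (d a)
        map_zero' := by simp
        map_add' := fun g h => by
          rw [Polynomial.sum_add_index] <;> simp })
    (fun g h => by
      change (g * h).sum (fun n a => monomial n (d a)) =
        g • (h.sum fun n a => monomial n (d a)) + h • (g.sum fun n a => monomial n (d a))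
      have hc : ∀ (f : E[X]) (n : ℕ), (f.sum fun n a => monomial n (d a)).coeff n =
          d (f.coeff n) := by
        intro f n
        rw [Polynomial.sum_def, Polynomial.finsetSum_coeff]
        simp only [Polynomial.coeff_monomial]
        rw [Finset.sum_ite_eq']
        split_ifs with h0
        · rfl
        · rw [Polynomial.notMem_support_iff.1 h0, map_zero]
      ext n
      rw [hc, Polynomial.coeff_add, smul_eq_mul, smul_eq_mul, Polynomial.coeff_mul,
        Polynomial.coeff_mul, mul_comm h, Polynomial.coeff_mul, map_sum, ← Finset.sum_add_distrib]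
      refine Finset.sum_congr rfl fun x _ => ?_
      rw [Derivation.leibniz, hc, hc, smul_eq_mul, smul_eq_mul]
      ring)

theorem dCoeff_coeff (d : Derivation ℤ E E) (g : E[X]) (n : ℕ) :
    (dCoeff d g).coeff n = d (g.coeff n) := by
  change (g.sum fun n a => monomial n (d a)).coeff n = _
  rw [Polynomial.sum_def, Polynomial.finsetSum_coeff]
  simp only [Polynomial.coeff_monomial]
  rw [Finset.sum_ite_eq']
  split_ifs with h0
  · rfl
  · rw [Polynomial.notMem_support_iff.1 h0, map_zero]

/-- the derivation `X d/dX` of `E[X]` -/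
noncomputable def nabP (E : Type) [Field E] : Derivation ℤ E[X] E[X] :=
  (X : E[X]) • (Polynomial.derivative' (R := E)).restrictScalars ℤ

theorem nabP_coeff (g : E[X]) (n : ℕ) : (nabP E g).coeff n = (n : E) * g.coeff n := by
  change ((X : E[X]) • (derivative g)).coeff n = _
  rw [smul_eq_mul]
  cases n with
  | zero => simp
  | succ n =>
    rw [Polynomial.coeff_X_mul, Polynomial.coeff_derivative]
    push_cast
    ring

/-- the Frobenius lift of `E[X]`: coefficients by `φ`, `X ↦ X ^ p` -/
noncomputable def phiP (φ : E →+* E) (p : ℕ) : E[X] →+* E[X] :=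
  (Polynomial.expand E p).toRingHom.comp (Polynomial.mapRingHom φ)

theorem phiP_apply (φ : E →+* E) (p : ℕ) (g : E[X]) :
    phiP φ p g = Polynomial.expand E p (g.map φ) := rfl

theorem phiP_injective (φ : E →+* E) (p : ℕ) (hp : 0 < p) : Function.Injective (phiP φ p) := by
  intro g h hgh
  have h1 := Polynomial.expand_injective hp hgh
  exact Polynomial.map_injective φ φ.injective h1

theorem phiP_le (φ : E →+* E) (p : ℕ) (hp : 0 < p) :
    nonZeroDivisors E[X] ≤ (nonZeroDivisors E[X]).comap (phiP φ p) := by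
  intro g hg
  rw [Submonoid.mem_comap, mem_nonZeroDivisors_iff_ne_zero]
  rw [mem_nonZeroDivisors_iff_ne_zero] at hg
  intro h
  exact hg (phiP_injective φ p hp (by rw [h, map_zero]))

/-- the Frobenius lift of `E(X)` -/
noncomputable def phiR (φ : E →+* E) (p : ℕ) (hp : 0 < p) : RatFunc E →+* RatFunc E :=
  RatFunc.mapRingHom (phiP φ p) (phiP_le φ p hp)

theorem phiR_algebraMap (φ : E →+* E) (p : ℕ) (hp : 0 < p) (g : E[X]) :
    phiR φ p hp (algebraMap E[X] (RatFunc E) g) = algebraMap E[X] (RatFunc E) (phiP φ p g) := by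
  unfold phiR
  rw [RatFunc.coe_mapRingHom_eq_coe_map]
  have := RatFunc.map_apply_div (phiP φ p) (phiP_le φ p hp) g 1
  simpa using this

namespace PF
variable {X : Idx} (A : PF X E)

/-- polynomials with coefficients in the valuation ring -/
def Int (i : X.I) (g : E[X]) : Prop := ∀ n, g.coeff n ∈ A.O i

/-- integral polynomials with a unit coefficient -/
def Prim (i : X.I) (g : E[X]) : Prop := A.Int i g ∧ ∃ n, A.Un i (g.coeff n)

/-- polynomials of degree at most `d` with coefficients in `pol i d` -/
def Pd (i : X.I) (d : ℕ) (g : E[X]) : Prop := g.natDegree ≤ d ∧ ∀ n, g.coeff n ∈ A.pol i d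

/-- the multiplicative set generated by the primitive polynomials -/
noncomputable def primS (i : X.I) : Submonoid E[X] := Submonoid.closure {g | A.Prim i g}

theorem Int.add {i : X.I} {g h : E[X]} (hg : A.Int i g) (hh : A.Int i h) : A.Int i (g + h) := by
  intro n
  rw [Polynomial.coeff_add]
  exact (A.O i).add_mem (hg n) (hh n)

theorem Int.neg {i : X.I} {g : E[X]} (hg : A.Int i g) : A.Int i (-g) := by
  intro n
  rw [Polynomial.coeff_neg]
  exact (A.O i).neg_mem (hg n)

theorem Int.mul {i : X.I} {g h : E[X]} (hg : A.Int i g) (hh : A.Int i h) : A.Int i (g * h) := by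
  intro n
  rw [Polynomial.coeff_mul]
  exact (A.O i).sum_mem fun x _ => (A.O i).mul_mem (hg _) (hh _)

theorem Int.one {i : X.I} : A.Int i 1 := by
  intro n
  rw [Polynomial.coeff_one]
  split
  · exact (A.O i).one_mem
  · exact (A.O i).zero_mem

theorem Int.zero {i : X.I} : A.Int i 0 := by
  intro n
  rw [Polynomial.coeff_zero]
  exact (A.O i).zero_mem

theorem Int.of_primS {i : X.I} {g : E[X]} (hg : g ∈ A.primS i) : A.Int i g := by
  induction hg using Submonoid.closure_induction with
  | mem x hx => exact hx.1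
  | one => exact Int.one A
  | mul x y _ _ hx hy => exact Int.mul A hx hy

/-- the Gauss ring of `E(x)`: `x = g / h`, `g` integral, `h` a product of primitive
polynomials (by Gauss's lemma: `h` primitive) -/
noncomputable def OX (i : X.I) : Subring (RatFunc E) where
  carrier := {x | ∃ g, A.Int i g ∧ ∃ h ∈ A.primS i,
    x * algebraMap E[X] (RatFunc E) h = algebraMap E[X] (RatFunc E) g}
  mul_mem' := by
    rintro x y ⟨g, hg, h, hh, e⟩ ⟨g', hg', h', hh', e'⟩
    refine ⟨g * g', Int.mul A hg hg', h * h', (A.primS i).mul_mem hh hh', ?_⟩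
    rw [map_mul, map_mul, ← e, ← e']
    ring
  one_mem' := ⟨1, Int.one A, 1, (A.primS i).one_mem, by simp⟩
  add_mem' := by
    rintro x y ⟨g, hg, h, hh, e⟩ ⟨g', hg', h', hh', e'⟩
    refine ⟨g * h' + g' * h, Int.add A (Int.mul A hg (Int.of_primS A hh'))
      (Int.mul A hg' (Int.of_primS A hh)), h * h', (A.primS i).mul_mem hh hh', ?_⟩
    rw [map_mul, map_add, map_mul, map_mul, ← e, ← e']
    ring
  zero_mem' := ⟨0, Int.zero A, 1, (A.primS i).one_mem, by simp⟩
  neg_mem' := by
    rintro x ⟨g, hg, h, hh, e⟩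
    exact ⟨-g, Int.neg A hg, h, hh, by rw [map_neg, ← e]; ring⟩

theorem Pd.zero {i : X.I} {d : ℕ} : A.Pd i d 0 :=
  ⟨by simp, fun n => by rw [Polynomial.coeff_zero]; exact (A.pol i d).zero_mem⟩

theorem Pd.add {i : X.I} {d : ℕ} {g h : E[X]} (hg : A.Pd i d g) (hh : A.Pd i d h) :
    A.Pd i d (g + h) :=
  ⟨(Polynomial.natDegree_add_le g h).trans (max_le hg.1 hh.1), fun n => by
    rw [Polynomial.coeff_add]; exact (A.pol i d).add_mem (hg.2 n) (hh.2 n)⟩

theorem Pd.neg {i : X.I} {d : ℕ} {g : E[X]} (hg : A.Pd i d g) : A.Pd i d (-g) :=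
  ⟨by rw [Polynomial.natDegree_neg]; exact hg.1, fun n => by
    rw [Polynomial.coeff_neg]; exact (A.pol i d).neg_mem (hg.2 n)⟩

/-- The PF structure of `E(x)`, `x` a new variable with `φ(x) = x ^ p`. The new derivation
`none` is `x d/dx`, the old ones act on the coefficients. -/
noncomputable def ext : PF X (RatFunc E) where
  O := A.OX
  phi i := phiR (A.phi i) (X.p i) (X.hp i).pos
  pol i d :=
    { carrier := {x | ∃ g, A.Pd i d g ∧ x = algebraMap E[X] (RatFunc E) g}
      add_mem' := by
        rintro x y ⟨g, hg, e⟩ ⟨g', hg', e'⟩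
        exact ⟨g + g', Pd.add A hg hg', by rw [e, e', map_add]⟩
      zero_mem' := ⟨0, Pd.zero A, by rw [map_zero]⟩
      neg_mem' := by
        rintro x ⟨g, hg, e⟩
        exact ⟨-g, Pd.neg A hg, by rw [e, map_neg]⟩ }
  den i d := {x | ∃ g, A.Pd i d g ∧ (∃ n, g.coeff n ∈ A.den i d ∧ ∀ m < n, g.coeff m = 0) ∧
    x = algebraMap E[X] (RatFunc E) g}
  J := Option A.J
  D j := match j with
    | none => fd (nabP E)
    | some j => fd (dCoeff (A.D j))

end PF

/-! ### Expansion at `0` -/

/-- polynomials as Laurent series -/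
noncomputable def exP (E : Type) [Field E] : E[X] →+* LaurentSeries E :=
  (HahnSeries.ofPowerSeries ℤ E).comp (Polynomial.coeToPowerSeries.ringHom (R := E))

theorem exP_injective (E : Type) [Field E] : Function.Injective (exP E) := by
  unfold exP
  rw [RingHom.coe_comp]
  exact HahnSeries.ofPowerSeries_injective.comp (Polynomial.coe_injective _)

theorem exP_coeff_nat (g : E[X]) (n : ℕ) : (exP E g).coeff (n : ℤ) = g.coeff n := by
  change (HahnSeries.ofPowerSeries ℤ E (g : PowerSeries E)).coeff (n : ℤ) = _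
  rw [HahnSeries.ofPowerSeries_apply_coeff, Polynomial.coeff_coe]

theorem exP_coeff_neg (g : E[X]) (k : ℤ) (hk : k < 0) : (exP E g).coeff k = 0 := by
  change (HahnSeries.ofPowerSeries ℤ E (g : PowerSeries E)).coeff k = _
  rw [HahnSeries.ofPowerSeries_apply]
  refine HahnSeries.embDomain_of_notMem_range ?_
  rintro ⟨n, hn⟩
  have : (n : ℤ) = k := hn
  omega

theorem exP_le (E : Type) [Field E] :
    nonZeroDivisors E[X] ≤ (nonZeroDivisors (LaurentSeries E)).comap (exP E) := by
  intro g hg
  rw [Submonoid.mem_comap, mem_nonZeroDivisors_iff_ne_zero]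
  rw [mem_nonZeroDivisors_iff_ne_zero] at hg
  intro h
  exact hg (exP_injective E (by rw [h, map_zero]))

/-- the expansion of a rational function at `0` -/
noncomputable def ex (E : Type) [Field E] : RatFunc E →+* LaurentSeries E :=
  RatFunc.liftRingHom (exP E) (exP_le E)

theorem ex_algebraMap (g : E[X]) : ex E (algebraMap E[X] (RatFunc E) g) = exP E g :=
  RatFunc.liftRingHom_algebraMap _ _ _

theorem ex_injective (E : Type) [Field E] : Function.Injective (ex E) := (ex E).injective

/-- Laurent series with all coefficients in `O` -/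
def PF.LO {X : Idx} {E : Type} [Field E] (A : PF X E) (i : X.I) : Set (LaurentSeries E) :=
  {f | ∀ k, f.coeff k ∈ A.O i}

/-- Laurent series with all coefficients divisible by `p ^ M` -/
def PF.LDv {X : Idx} {E : Type} [Field E] (A : PF X E) (i : X.I) (M : ℕ) :
    Set (LaurentSeries E) :=
  {f | ∀ k, A.Dv i M (f.coeff k)}

end Pool.CM
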