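import Mathlib
import Pool.Agent.H4.Cube.PartC
import Pool.Agent.H4.Cube.PartD

set_option autoImplicit false

/-!
# MP_47888e_al, block R, part 1: reduction of the frozen statement to number fields
-/

namespace Pool.CM

open MvPolynomial Pool.Agent.H4.Cube

/-- The core statement over number fields: a polynomial all of whose powers `f ^ m`, `m ≥ 1`,
are killed by the cube functional is zero. -/
def CoreStmt : Prop :=
  ∀ (K : Type) [Field K] [NumberField K] (n : ℕ) (f : MvPolynomial (Fin n) K),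
    (∀ m : ℕ, 1 ≤ m → Lf (f ^ m) = 0) → f = 0

/-- The cube functional over a `ℚ`-algebra. -/
noncomputable def LQ {n : ℕ} {R : Type*} [CommRing R] [Algebra ℚ R]
    (P : MvPolynomial (Fin n) R) : R :=
  ∑ κ ∈ P.support, P.coeff κ * algebraMap ℚ R (∏ i, (((κ i + 1 : ℕ) : ℚ))⁻¹)

theorem LQ_eq_sum {n : ℕ} {R : Type*} [CommRing R] [Algebra ℚ R]
    (P : MvPolynomial (Fin n) R) (S : Finset (Fin n →₀ ℕ)) (hS : P.support ⊆ S) :
    LQ P = ∑ κ ∈ S, P.coeff κ * algebraMap ℚ R (∏ i, (((κ i + 1 : ℕ) : ℚ))⁻¹) := by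
  refine Finset.sum_subset hS fun κ _ hκ => ?_
  rw [notMem_support_iff.1 hκ, zero_mul]

theorem map_LQ {n : ℕ} {R : Type*} [CommRing R] [Algebra ℚ R] {K : Type*} [Field K] [CharZero K]
    (ψ : R →+* K) (P : MvPolynomial (Fin n) R) : ψ (LQ P) = Lf (map ψ P) := by
  classical
  have : CharZero K := inferInstance
  have hsub : (map ψ P).support ⊆ P.support := support_map_subset ψ P
  have h1 : Lf (map ψ P) =
      ∑ κ ∈ P.support, (map ψ P).coeff κ * ∏ i, (((κ i + 1 : ℕ) : K))⁻¹ := by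
    rw [Lf_eq]
    refine Finset.sum_subset hsub fun κ _ hκ => ?_
    rw [notMem_support_iff.1 hκ, zero_mul]
  rw [h1, LQ, map_sum]
  refine Finset.sum_congr rfl fun κ _ => ?_
  rw [map_mul, coeff_map]
  congr 1
  have h2 : ψ.comp (algebraMap ℚ R) = algebraMap ℚ K := Subsingleton.elim _ _
  have h3 : ψ (algebraMap ℚ R (∏ i, (((κ i + 1 : ℕ) : ℚ))⁻¹)) =
      algebraMap ℚ K (∏ i, (((κ i + 1 : ℕ) : ℚ))⁻¹) := by
    rw [← h2]; rfl
  rw [h3, map_prod]
  refine Finset.prod_congr rfl fun i _ => ?_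
  rw [map_inv₀, map_natCast]

/-- The core statement over `ℂ`. -/
theorem core_complex (h : CoreStmt) (n : ℕ) (f : MvPolynomial (Fin n) ℂ)
    (hf : ∀ m : ℕ, 1 ≤ m → Lf (f ^ m) = 0) : f = 0 := by
  classical
  by_contra hne
  obtain ⟨κ0, hκ0⟩ := ne_zero_iff.1 hne
  let ι : Type := f.support
  let x : ι → ℂ := fun κ => f.coeff κ.1
  let a : MvPolynomial ι ℚ →ₐ[ℚ] ℂ := aeval x
  set I : Ideal (MvPolynomial ι ℚ) := RingHom.ker (a : MvPolynomial ι ℚ →ₐ[ℚ] ℂ) with hI
  have hIp : I.IsPrime := RingHom.ker_isPrime _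
  have hrad : I.IsRadical := hIp.isRadical
  have hjac : I.jacobson = I := IsJacobsonRing.out inferInstance hrad
  have hmem0 : κ0 ∈ f.support := mem_support_iff.2 hκ0
  have hX : (X ⟨κ0, hmem0⟩ : MvPolynomial ι ℚ) ∉ I.jacobson := by
    rw [hjac, hI, RingHom.mem_ker]
    intro h0
    have : a (X ⟨κ0, hmem0⟩) = f.coeff κ0 := by simp [a, x]
    rw [this] at h0
    exact hκ0 h0
  rw [Ideal.jacobson, Ideal.mem_sInf] at hX
  push Not at hX
  obtain ⟨M, ⟨hIM, hM⟩, hXM⟩ := hX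
  let _ : Field (MvPolynomial ι ℚ ⧸ M) := Ideal.Quotient.field M
  have hft : Algebra.FiniteType ℚ (MvPolynomial ι ℚ ⧸ M) :=
    Algebra.FiniteType.of_surjective (Ideal.Quotient.mkₐ ℚ M) (Ideal.Quotient.mkₐ_surjective ℚ M)
  have hfin : Module.Finite ℚ (MvPolynomial ι ℚ ⧸ M) :=
    finite_of_finite_type_of_isJacobsonRing ℚ (MvPolynomial ι ℚ ⧸ M)
  have hcz : CharZero (MvPolynomial ι ℚ ⧸ M) := algebraRat.charZero _
  have hnf : NumberField (MvPolynomial ι ℚ ⧸ M) := by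
    refine @NumberField.mk _ _ hcz ?_
    have e : (DivisionRing.toRatAlgebra : Algebra ℚ (MvPolynomial ι ℚ ⧸ M)) =
        Ideal.Quotient.algebra ℚ := Subsingleton.elim _ _
    rw [FiniteDimensional, e]
    exact hfin
  -- the generic polynomial
  set F : MvPolynomial (Fin n) (MvPolynomial ι ℚ) := ∑ κ : ι, monomial κ.1 (X κ) with hF
  have hFa : map (a : MvPolynomial ι ℚ →+* ℂ) F = f := by
    rw [hF, map_sum]
    conv_rhs => rw [f.as_sum]
    rw [← Finset.sum_coe_sort f.support (fun v => monomial v (coeff v f))]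
    refine Finset.sum_congr rfl fun κ _ => ?_
    rw [map_monomial]
    simp [a, x]
  have hpow : ∀ m : ℕ, 1 ≤ m → LQ (F ^ m) ∈ M := by
    intro m hm
    apply hIM
    rw [hI, RingHom.mem_ker]
    have h1 := map_LQ (a : MvPolynomial ι ℚ →+* ℂ) (F ^ m)
    rw [map_pow, hFa, hf m hm] at h1
    exact h1
  have hcore := h (MvPolynomial ι ℚ ⧸ M) n (map (Ideal.Quotient.mk M) F) (fun m hm => by
    rw [← map_pow, ← map_LQ]
    exact Ideal.Quotient.eq_zero_iff_mem.2 (hpow m hm))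
  have hc : coeff κ0 (map (Ideal.Quotient.mk M) F) = 0 := by rw [hcore, coeff_zero]
  rw [coeff_map, hF, coeff_sum, Finset.sum_eq_single (⟨κ0, hmem0⟩ : ι)] at hc
  · rw [coeff_monomial, if_pos rfl] at hc
    exact hXM (Ideal.Quotient.eq_zero_iff_mem.1 hc)
  · intro b _ hb
    rw [coeff_monomial, if_neg]
    intro hb'
    exact hb (Subtype.ext hb')
  · intro hcon
    exact absurd (Finset.mem_univ _) hcon

theorem integral_eq_Lf {n : ℕ} (P : MvPolynomial (Fin n) ℂ) :
    ∫ x in Set.Icc (0 : Fin n → ℝ) 1, MvPolynomial.eval (fun i => ((x i : ℝ) : ℂ)) P = Lf P := by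
  rw [integral_eval, Lf_eq]
  refine Finset.sum_congr rfl fun κ _ => ?_
  congr 1
  refine Finset.prod_congr rfl fun i _ => ?_
  push_cast
  rw [one_div]

/-- The frozen statement `S01357` follows from the core statement. -/
theorem s01357_of_core (h : CoreStmt) :
    ∀ n : ℕ, ∀ f g : MvPolynomial (Fin n) ℂ,
      (∃ N : ℕ, ∀ m : ℕ, N ≤ m →
        ∫ x in Set.Icc (0 : Fin n → ℝ) 1,
          MvPolynomial.eval (fun i => ((x i : ℝ) : ℂ)) (f ^ m) = 0) →
      ∃ N : ℕ, ∀ m : ℕ, N ≤ m →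
        ∫ x in Set.Icc (0 : Fin n → ℝ) 1,
          MvPolynomial.eval (fun i => ((x i : ℝ) : ℂ)) (f ^ m * g) = 0 := by
  intro n f g ⟨N, hN⟩
  have h0 : f ^ (N + 1) = 0 := by
    apply core_complex h
    intro m hm
    rw [← pow_mul, ← integral_eq_Lf]
    apply hN
    nlinarith
  have hf0 : f = 0 := by
    by_contra hne
    exact pow_ne_zero _ hne h0
  refine ⟨1, fun m hm => ?_⟩
  rw [integral_eq_Lf, hf0, zero_pow (by omega), zero_mul, map_zero]

end Pool.CM
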