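import Pool.Agent.H10.CM.T2Defs

set_option autoImplicit false

/-!
# MP_47888e_al, cube project, T2 wiring: one limit step for a functional

`d : LD A G e u e'`, `κ : E →+* K`; a row `δ : m → LaurentSeries K` with `∇ δ = δ G` is
`δ = x Z'ᵀ` with a row `x : u → K`.
-/

open Polynomial

namespace Pool.CM.T2

open Pool.CM Pool.H93.Cube

/-! ### series -/

section ser
variable {K : Type} [Field K]

theorem cmap_C (D : K →+ K) (x : K) :
    cmap D (HahnSeries.C x : LaurentSeries K) = HahnSeries.C (D x) := by
  ext k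
  rw [cmap_coeff]
  by_cases h : k = 0
  · subst h
    simp
  · rw [HahnSeries.C_apply, HahnSeries.C_apply, HahnSeries.coeff_single_of_ne h,
      HahnSeries.coeff_single_of_ne h, map_zero]

/-- coefficientwise derivation, additive version -/
theorem cmap_mul' (D : K →+ K) (hD : ∀ x y, D (x * y) = D x * y + x * D y)
    (f g : LaurentSeries K) : cmap D (f * g) = cmap D f * g + f * cmap D g := by
  obtain ⟨a, ha⟩ := exists_bound f
  obtain ⟨b, hb⟩ := exists_bound g
  have ha' : ∀ k < a, (cmap D f).coeff k = 0 := fun k hk => by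
    rw [cmap_coeff, ha k hk, map_zero]
  have hb' : ∀ k < b, (cmap D g).coeff k = 0 := fun k hk => by
    rw [cmap_coeff, hb k hk, map_zero]
  ext k
  rw [cmap_coeff, HahnSeries.coeff_add, coeff_mul_Icc ha hb, coeff_mul_Icc ha' hb,
    coeff_mul_Icc ha hb', map_sum, ← Finset.sum_add_distrib]
  refine Finset.sum_congr rfl fun j _ => ?_
  rw [cmap_coeff, cmap_coeff, hD]

/-- The operator `D + G` on vectors. -/
def opA {L : Type} [Field L] {m : Type} [Fintype m] (D : L →+ L) (G : Matrix m m L) :
    AddMonoid.End (m → L) where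
  toFun v := (fun a => D (v a)) + G.mulVec v
  map_zero' := by
    funext a
    simp
  map_add' v w := by
    rw [Matrix.mulVec_add]
    funext a
    simp only [Pi.add_apply, map_add]
    ring

theorem opA_apply {L : Type} [Field L] {m : Type} [Fintype m] (D : L →+ L) (G : Matrix m m L)
    (v : m → L) (a : m) : opA D G v a = D (v a) + ∑ b, G a b * v b := rfl

theorem opA_neg {F L : Type} [Field F] [Field L] {m : Type} [Fintype m] (κ : F →+* L)
    (M : Matrix m m F) (D : L →+ L) (v : m → L) (a : m) :
    opA D (-(M.map κ).transpose) v a = D (v a) - ∑ b, κ (M b a) * v b := by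
  rw [opA_apply, sub_eq_add_neg, ← Finset.sum_neg_distrib]
  congr 1
  refine Finset.sum_congr rfl fun c _ => ?_
  rw [Matrix.neg_apply, Matrix.transpose_apply, Matrix.map_apply, neg_mul]

end ser

section step
variable {X : Idx} {E : Type} [Field E] {A : PF X E} {K : Type} [Field K] (κ : E →+* K)
variable {m : Type} [Fintype m] [DecidableEq m]
  {G : Option A.J → Matrix m m (RatFunc E)} {e : m}
  {u : Type} [Fintype u] [DecidableEq u] {e' : u}

/-- the row over `LaurentSeries K` with coordinates `y` -/
noncomputable def lift (Z' : Matrix m u (LaurentSeries E)) (y : u → K) (a : m) :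
    LaurentSeries K := ∑ b, cmapR κ (Z' a b) * HahnSeries.C (y b)

theorem lift_inv (d : LD A G e u e') (y : u → K) (c : u) :
    ∑ a, cmapR κ (d.Z a c) * lift κ d.Z' y a = HahnSeries.C (y c) := by
  classical
  have h1 : d.Z.transpose * d.Z' = 1 := by
    have := congrArg Matrix.transpose d.ZZ
    rwa [Matrix.transpose_mul, Matrix.transpose_transpose, Matrix.transpose_one] at this
  simp only [lift, Finset.mul_sum]
  rw [Finset.sum_comm]
  have h3 : ∀ b, ∑ a, cmapR κ (d.Z a c) * (cmapR κ (d.Z' a b) *
      HahnSeries.C (y b)) = (if c = b then HahnSeries.C (y b) else 0) := by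
    intro b
    have h4 : ∑ a, d.Z a c * d.Z' a b = if c = b then 1 else 0 := by
      have := congrFun (congrFun h1 c) b
      rw [Matrix.mul_apply, Matrix.one_apply] at this
      exact this
    have h5 : ∑ a, cmapR κ (d.Z a c) * (cmapR κ (d.Z' a b) *
        HahnSeries.C (y b)) = cmapR κ (∑ a, d.Z a c * d.Z' a b) * HahnSeries.C (y b) := by
      rw [map_sum, Finset.sum_mul]
      exact Finset.sum_congr rfl fun a _ => by rw [map_mul]; ring
    rw [h5, h4]
    split
    · rw [map_one, one_mul]
    · rw [map_zero, zero_mul]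
  rw [Finset.sum_congr rfl fun b _ => h3 b]
  simp

theorem lift_injective (d : LD A G e u e') (y : u → K) (h : lift κ d.Z' y = 0) : y = 0 := by
  funext c
  have h3 := lift_inv κ d y c
  rw [h] at h3
  simp only [Pi.zero_apply, mul_zero, Finset.sum_const_zero] at h3
  have h4 : (HahnSeries.C (y c) : LaurentSeries K).coeff 0 = 0 := by
    rw [← h3]
    rfl
  rw [HahnSeries.C_apply, HahnSeries.coeff_single_same] at h4
  exact h4

/-- the value at the special vector -/
theorem lift_e (d : LD A G e u e') (y : u → K) (h : lift κ d.Z' y e = 1) : y e' = 1 := by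
  classical
  have h1 := lift_inv κ d y e'
  have h2 : ∀ a, cmapR κ (d.Z a e') * lift κ d.Z' y a = if a = e then lift κ d.Z' y a else 0 := by
    intro a
    rw [d.Ze a]
    split
    · rw [map_one, one_mul]
    · rw [map_zero, zero_mul]
  rw [Finset.sum_congr rfl fun a _ => h2 a, Finset.sum_ite_eq' Finset.univ e,
    if_pos (Finset.mem_univ _), h] at h1
  have h3 : (1 : LaurentSeries K).coeff 0 = (HahnSeries.C (y e') : LaurentSeries K).coeff 0 := by
    rw [h1]
  rw [HahnSeries.C_apply, HahnSeries.coeff_single_same, HahnSeries.coeff_one, if_pos rfl] at h3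
  exact h3.symm

/-- coefficientwise derivations pass through the lift -/
theorem lift_op (d : LD A G e u e') (j : A.J) (D : K →+ K)
    (hD : ∀ x y, D (x * y) = D x * y + x * D y) (hDκ : ∀ x, D (κ x) = κ (A.D j x)) (y : u → K) :
    opA (cmap D) (-((G (some j)).map ((cmapR κ).comp (ex E))).transpose) (lift κ d.Z' y) =
      lift κ d.Z' (opA D (-((d.G' j).map κ).transpose) y) := by
  classical
  funext a
  have hD' := d.hD' j
  have h1 : ∀ a b, cmap (A.D j : E →+ E)
      (d.Z' a b) = ∑ c, ex E (G (some j) c a) * d.Z' c b -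
        ∑ c, d.Z' a c * HahnSeries.C (d.G' j b c) := by
    intro a b
    have := congrFun (congrFun hD' a) b
    simp only [Matrix.sub_apply, Matrix.map_apply, Matrix.mul_apply, Matrix.neg_apply,
      Matrix.transpose_apply, cM] at this
    rw [sub_eq_iff_eq_add] at this
    rw [this]
    ring
  have h2 : ∀ z : LaurentSeries E, cmap D (cmapR κ z) = cmapR κ (cmap (A.D j : E →+ E) z) := by
    intro z
    ext k
    rw [cmap_coeff, cmapR_coeff, cmapR_coeff, cmap_coeff, hDκ]
    rfl
  have hmul : ∀ f g, cmap D (f * g) = cmap D f * g + f * cmap D g := cmap_mul' D hD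
  have hC : ∀ x, cmap D (HahnSeries.C x : LaurentSeries K) = HahnSeries.C (D x) := cmap_C D
  have h5 := opA_neg κ (d.G' j) D y
  have h3 : cmap D (lift κ d.Z' y a) =
      ∑ b, (∑ c, (cmapR κ).comp (ex E) (G (some j) c a) * (cmapR κ (d.Z' c b) *
        HahnSeries.C (y b)) - ∑ c, cmapR κ (d.Z' a c) *
        (HahnSeries.C (κ (d.G' j b c)) * HahnSeries.C (y b)) +
        cmapR κ (d.Z' a b) * HahnSeries.C (D (y b))) := by
    rw [lift, map_sum]
    refine Finset.sum_congr rfl fun b _ => ?_
    rw [hmul, h2, hC, h1, map_sub, map_sum, map_sum, sub_mul, Finset.sum_mul, Finset.sum_mul]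
    congr 2
    · refine Finset.sum_congr rfl fun c _ => ?_
      rw [map_mul, mul_assoc]
      rfl
    · refine Finset.sum_congr rfl fun c _ => ?_
      rw [map_mul, mul_assoc, cmapR_C]
  have h4 : ∑ b, (cmapR κ).comp (ex E) (G (some j) b a) * lift κ d.Z' y b =
      ∑ b, ∑ c, (cmapR κ).comp (ex E) (G (some j) c a) * (cmapR κ (d.Z' c b) *
        HahnSeries.C (y b)) := by
    rw [Finset.sum_comm]
    refine Finset.sum_congr rfl fun b _ => ?_
    rw [lift, Finset.mul_sum]
  have h6 : lift κ d.Z' (opA D (-((d.G' j).map κ).transpose) y) a =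
      ∑ b, (cmapR κ (d.Z' a b) * HahnSeries.C (D (y b))) -
      ∑ b, ∑ c, cmapR κ (d.Z' a c) * (HahnSeries.C (κ (d.G' j b c)) * HahnSeries.C (y b)) := by
    rw [lift, Finset.sum_comm, ← Finset.sum_sub_distrib]
    refine Finset.sum_congr rfl fun b _ => ?_
    rw [h5, map_sub, map_sum, mul_sub, Finset.mul_sum]
    congr 1
    refine Finset.sum_congr rfl fun c _ => ?_
    rw [map_mul]
  rw [opA_neg ((cmapR κ).comp (ex E)), h3, h4, h6, Finset.sum_add_distrib,
    Finset.sum_sub_distrib]
  ring

theorem lift_op_pow (d : LD A G e u e') (j : A.J) (D : K →+ K)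
    (hD : ∀ x y, D (x * y) = D x * y + x * D y) (hDκ : ∀ x, D (κ x) = κ (A.D j x)) (q : ℕ)
    (y : u → K)
    (h : ((opA (cmap D) (-((G (some j)).map ((cmapR κ).comp (ex E))).transpose)) ^ q)
      (lift κ d.Z' y) = 0) :
    ((opA D (-((d.G' j).map κ).transpose)) ^ q) y = 0 := by
  have h1 : ∀ q (y : u → K),
      ((opA (cmap D) (-((G (some j)).map ((cmapR κ).comp (ex E))).transpose)) ^ q)
        (lift κ d.Z' y) = lift κ d.Z' (((opA D (-((d.G' j).map κ).transpose)) ^ q) y) := by
    intro q
    induction q with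
    | zero => intro y; rfl
    | succ q ih =>
      intro y
      rw [pow_succ, pow_succ]
      change ((opA (cmap D) (-((G (some j)).map ((cmapR κ).comp (ex E))).transpose)) ^ q)
        (opA (cmap D) (-((G (some j)).map ((cmapR κ).comp (ex E))).transpose)
          (lift κ d.Z' y)) = lift κ d.Z' (((opA D (-((d.G' j).map κ).transpose)) ^ q)
          (opA D (-((d.G' j).map κ).transpose) y))
      rw [lift_op κ d j D hD hDκ, ih]
  exact lift_injective κ d _ (by rw [← h1, h])

/-- the coefficients of order zero of `Z'ᵀ v` -/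
noncomputable def hv (Z' : Matrix m u (LaurentSeries E)) (v : m → RatFunc E) (b : u) : E :=
  (∑ a, Z' a b * ex E (v a)).coeff 0

theorem lift_val (d : LD A G e u e') (y : u → K) (v : m → RatFunc E) :
    (∑ a, lift κ d.Z' y a * (cmapR κ).comp (ex E) (v a)).coeff 0 =
      ∑ b, y b * κ (hv d.Z' v b) := by
  have h1 : ∑ a, lift κ d.Z' y a * (cmapR κ).comp (ex E) (v a) =
      ∑ b, HahnSeries.C (y b) * cmapR κ (∑ a, d.Z' a b * ex E (v a)) := by
    simp only [lift, Finset.sum_mul, map_sum, Finset.mul_sum]
    rw [Finset.sum_comm]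
    refine Finset.sum_congr rfl fun b _ => Finset.sum_congr rfl fun a _ => ?_
    rw [map_mul, RingHom.comp_apply]
    ring
  rw [h1, HahnSeries.coeff_sum]
  refine Finset.sum_congr rfl fun b _ => ?_
  rw [HahnSeries.C_mul_eq_smul, HahnSeries.coeff_smul, cmapR_coeff, smul_eq_mul, hv]

/-- existence of the coordinates -/
theorem exists_lift (d : LD A G e u e') (q : ℕ) (δ : m → LaurentSeries K)
    (h : ((op (-((G none).map ((cmapR κ).comp (ex E))).transpose)) ^ q) δ = 0) :
    ∃ x : u → K, δ = lift κ d.Z' x := by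
  obtain ⟨x, hx⟩ := d.compl' K κ q δ h
  exact ⟨x, funext hx⟩

theorem mapL_eq_cmapR {F L : Type} [Field F] [Field L] (κ : F →+* L) (f : LaurentSeries F) :
    FUN.mapL κ f = cmapR κ f := by
  ext k
  rfl

end step

end Pool.CM.T2
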