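import Pool.Agent.H10.CM.Step
import Pool.Agent.H50.CUBE.D8

set_option autoImplicit false

/-!
# MP_47888e_al, cube project, T2 wiring (abstract)

`A : PF X E`; parameters `τ` (`A.ext`), `σ` (`A.ext.ext`), `λ` (`A.ext.ext.ext`).
-/

open Polynomial

namespace Pool.CM.T2

open Pool.CM Pool.H93.Cube

variable {X : Idx} {E : Type} [Field E]

/-- expansion `E(τ) → E((τ))` -/
noncomputable def kap1 (E : Type) [Field E] : RatFunc E →+* LS E := ex E

/-- expansion `E(τ)(σ) → E((τ))((σ))` -/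
noncomputable def kap2 (E : Type) [Field E] : RatFunc (RatFunc E) →+* LS (LS E) := kap (kap1 E)

/-- expansion `E(τ)(σ)(λ) → E((τ))((σ))((λ))` -/
noncomputable def kap3 (E : Type) [Field E] :
    RatFunc (RatFunc (RatFunc E)) →+* LaurentSeries (LS (LS E)) :=
  (cmapR (kap2 E)).comp (ex (RatFunc (RatFunc E)))

theorem iota1 (A : PF X E) (hA : A.Ax) : (ls (FUN.TG.base A hA)).ι = kap1 E := by
  apply RingHom.ext
  intro x
  apply HahnSeries.ext
  funext k
  rfl

theorem iota2 (A : PF X E) (hA : A.Ax) : (ls (ls (FUN.TG.base A hA))).ι = kap2 E := by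
  apply RingHom.ext
  intro x
  have h1 := iota1 A hA
  apply HahnSeries.ext
  funext k
  change (ls (FUN.TG.base A hA)).ι ((ex (RatFunc E) x).coeff k) = kap1 E ((ex (RatFunc E) x).coeff k)
  rw [h1]

theorem opA_pow_eq {K : Type} [Field K] {m : Type} [Fintype m]
    (M : Matrix m m (LaurentSeries K)) (q : ℕ) (v : m → LaurentSeries K)
    (h : ((opA (L := LS K) (nabS K) M) ^ q) v = 0) : ((op M) ^ q) v = 0 := by
  have h1 : ∀ q (v : m → LaurentSeries K),
      ((opA (L := LS K) (nabS K) M) ^ q) v = ((op M) ^ q) v := by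
    intro q
    induction q with
    | zero => intro v; rfl
    | succ q ih =>
      intro v
      rw [pow_succ, pow_succ]
      exact ih (op M v)
  rw [← h1]
  exact h

/-- A compatible row `w` with `w e = 1` forces the functional of the package to vanish on the
kernel of `w`. -/
theorem posit (A : PF X E) (hA : A.Ax) {u : Type} [Fintype u] [DecidableEq u]
    (G : A.ext.J → Matrix u u (RatFunc E)) (chi : u → RatFunc E) (e : u) (n : ℕ)
    (w : u → LaurentSeries E) (hwe : w e = 1)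
    (hC : Comp ((FUN.TG.base A hA).lau All.xph) (A := A.ext) G chi e n w)
    (y : u → RatFunc E) (hy : ∑ b, w b * ex E (y b) = 0) : ∑ b, chi b * y b = 0 := by
  refine Pool.CUBE.D.pos1 hA (Pool.CUBE.D.exn0 A hA) ((FUN.TG.base A hA).lau All.xph)
    (Pool.CUBE.D.adm_zero A hA All.xph) G chi e n w (by rw [hwe]; exact one_ne_zero) ?_ y hy
  intro M
  obtain ⟨C, hC'⟩ := hC M
  refine ⟨C, fun L => (hC' L.toNat).mono ?_⟩
  rintro i ⟨Phi, Phi', hFr, hMC⟩
  refine ⟨Phi, Phi', hFr, ?_⟩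
  obtain ⟨h0, hh, hP, hc⟩ := hMC
  refine ⟨h0, hh, hP, fun b => ?_⟩
  refine ((FUN.TG.base A hA).lau All.xph).anti i _ _ _ _ le_rfl ?_ (hc b)
  have h1 : L ≤ (L.toNat : ℤ) := Int.self_le_toNat L
  rw [mul_comm]
  exact mul_le_mul_of_nonneg_right h1 (by positivity)

/-- the data for T2 -/
theorem t2 (hF : FunStmt) (A : PF X E) (hA : A.Ax) (hJ : Finite A.J) {m : Type} [Fintype m]
    [DecidableEq m] (G : Option A.ext.ext.J → Matrix m m (RatFunc (RatFunc (RatFunc E))))
    (chi : m → RatFunc (RatFunc (RatFunc E))) (e : m) (n q : ℕ)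
    (hP : Pkg A.ext.ext.ext G chi e n)
    (δ : m → LaurentSeries (LS (LS E)))
    (hlam : op (-((G none).map (kap3 E)).transpose) δ = 0)
    (hsig : ((opA (cmap (nabS (LS E))) (-((G (some (jn A.ext))).map (kap3 E)).transpose)) ^ q)
      δ = 0)
    (he : δ e = 1)
    (hC : Comp (FUN.TG.lau (ls (ls (FUN.TG.base A hA))) All.xph) (A := A.ext.ext.ext) G chi e n δ)
    {u1 : Type} [Fintype u1] [DecidableEq u1] {e1 : u1} (d1 : LD A.ext.ext G e u1 e1)
    {u2 : Type} [Fintype u2] [DecidableEq u2] {e2 : u2} (d2 : LD A.ext d1.G' e1 u2 e2)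
    (v : m → RatFunc (RatFunc (RatFunc E)))
    (hv0 : HahnSeries.coeff (Γ := ℤ) (R := LS E) ((∑ a, δ a * kap3 E (v a)).coeff 0) (-1) = 0) :
    ∑ b, d2.chi' (d1.chi' chi) b * hv d2.Z' (fun a => RatFunc.X * hv d1.Z' v a) b = 0 := by
  classical
  have hA1 : A.ext.Ax := All.ext X E A hA
  have hA2 : A.ext.ext.Ax := All.ext X _ A.ext hA1
  have hJ1 : Finite A.ext.J := inferInstanceAs (Finite (Option A.J))
  have hJ2 : Finite A.ext.ext.J := inferInstanceAs (Finite (Option A.ext.J))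
  -- first limit
  obtain ⟨x, hx⟩ := exists_lift (kap2 E) d1 1 δ (by rw [pow_one]; exact hlam)
  have hxe : x e1 = 1 := lift_e (kap2 E) d1 x (by rw [← hx]; exact he)
  have hx2 := lift_op_pow (kap2 E) d1 (jn A.ext) (nabS (LS E)) (nabS_mul (LS E))
    (nabS_kap (A := A.ext) (kap1 E)) q x (by rw [← hx]; exact hsig)
  obtain ⟨hP1, hT1⟩ := hF X _ A.ext.ext hA2 hJ2 m G chi e n hP u1 e1 d1
  have hC1 := hT1 _ (ls (ls (FUN.TG.base A hA))) (ls_Rg _ (ls_Rg _ (FUN.base_Rg A hA))) x δ (by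
    intro a
    rw [iota2, hx]
    exact Finset.sum_congr rfl fun b _ => by rw [mapL_eq_cmapR]) hC
  -- second limit
  obtain ⟨w, hw⟩ := exists_lift (kap1 E) d2 q x (opA_pow_eq _ q x hx2)
  have hwe : w e2 = 1 := lift_e (kap1 E) d2 w (by rw [← hw]; exact hxe)
  obtain ⟨hP2, hT2⟩ := hF X _ A.ext hA1 hJ1 u1 d1.G' (d1.chi' chi) e1 n hP1 u2 e2 d2
  have hC2 := hT2 _ (ls (FUN.TG.base A hA)) (ls_Rg _ (FUN.base_Rg A hA)) w x (by
    intro a
    rw [iota1]
    have := congrFun hw a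
    rw [this]
    exact Finset.sum_congr rfl fun b _ => by rw [mapL_eq_cmapR]) hC1
  -- the values
  refine posit A hA _ _ e2 n w hwe hC2 _ ?_
  change ∑ b, w b * kap1 E (hv d2.Z' (fun a => RatFunc.X * hv d1.Z' v a) b) = 0
  rw [← lift_val (kap1 E) d2 w (fun a => RatFunc.X * hv d1.Z' v a)]
  have h2 : (∑ a, δ a * kap3 E (v a)).coeff 0 = ∑ b, x b * kap2 E (hv d1.Z' v b) := by
    rw [← lift_val (kap2 E) d1 x v, ← hx]
    rfl
  have h3 : (∑ a, lift (kap1 E) d2.Z' w a * (cmapR (kap1 E)).comp (ex (RatFunc E))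
        (RatFunc.X * hv d1.Z' v a)) = HahnSeries.single (1 : ℤ) (1 : LS E) *
        ∑ a, lift (kap1 E) d2.Z' w a * (cmapR (kap1 E)).comp (ex (RatFunc E))
          (hv d1.Z' v a) := by
    rw [Finset.mul_sum]
    refine Finset.sum_congr rfl fun a _ => ?_
    have h4 : (cmapR (kap1 E)).comp (ex (RatFunc E)) (RatFunc.X * hv d1.Z' v a) =
        HahnSeries.single (1 : ℤ) (1 : LS E) *
        (cmapR (kap1 E)).comp (ex (RatFunc E)) (hv d1.Z' v a) := by
      rw [map_mul]
      congr 1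
      rw [RingHom.comp_apply, ← RatFunc.algebraMap_X, ex_algebraMap, Pool.CUBE.D.exP_X,
        cmapR_single, map_one]
    rw [h4]
    ring
  rw [h3, HahnSeries.coeff_single_mul, one_mul, ← hw]
  rw [h2] at hv0
  exact hv0

end Pool.CM.T2
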