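import Pool.Agent.H10.CM.T2
import Pool.Agent.H10.CM.FunStep
import Pool.Agent.H63.CUBE.Cmp2
import Pool.Agent.H38.CUBE.JJStmts
import Pool.Agent.H41.CUBE.TStmts
import Pool.Agent.H7.CUBE.GFL

set_option autoImplicit false

/-!
# MP_47888e_al, cube project, T2 wiring for the corner package

`K : Corner n E`; the value of the limit of the package of `K.P` on `σ c ω` is zero for every
numerator `ω` of level `1` over `E` and every constant `c ∈ E(τ)`.
-/

open Polynomial

namespace Pool.CM.T2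

open Pool.CM Pool.H93.Cube Pool.CUBE

/-! ### constants -/

theorem coeff_Cmul {L : Type} [Field L] (x : L) (f : LaurentSeries L) (k : ℤ) :
    (HahnSeries.C x * f).coeff k = x * f.coeff k := by
  rw [HahnSeries.C_mul_eq_smul, HahnSeries.coeff_smul, smul_eq_mul]

/-- constants -/
noncomputable def lsC (L : Type) [Field L] : L →+* LS L := HahnSeries.C

theorem coeff_lsC {L : Type} [Field L] (x : L) (f : LS L) (k : ℤ) :
    HahnSeries.coeff (Γ := ℤ) (R := L) (lsC L x * f) k =
      x * HahnSeries.coeff (Γ := ℤ) (R := L) f k := coeff_Cmul x f k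

theorem ex_CC {F : Type} [Field F] (x : F) : ex F (RatFunc.C x) = HahnSeries.C x := by
  have h1 : (RatFunc.C x : RatFunc F) = algebraMap F[X] (RatFunc F) (C x) := rfl
  rw [h1, Pool.CM.EG.ex_C]

theorem kap2_C {E : Type} [Field E] (c : RatFunc E) :
    kap2 E (RatFunc.C c) = lsC (LS E) (kap1 E c) := by
  change cmapR (kap1 E) (ex (RatFunc E) (RatFunc.C c)) = _
  rw [ex_CC, cmapR_C]
  rfl

theorem kap3_C {E : Type} [Field E] (c : RatFunc E) :
    kap3 E (RatFunc.C (RatFunc.C c)) = HahnSeries.C (lsC (LS E) (kap1 E c)) := by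
  rw [kap3, RingHom.comp_apply, ex_CC, cmapR_C, kap2_C]

/-! ### the rows of the corner functional -/

section rows
variable {n : ℕ} {E : Type} [Field E]

/-- the functional on the basis -/
noncomputable def row (K : Corner n E) (j : ℕ) {N : Type} (b : N → Poly n (F3 E)) :
    N → LaurentSeries (LS (LS E)) := fun a => K.JJ j (b a)

/-- the value of the functional -/
noncomputable def jjv (K : Corner n E) (g : Poly n (F3 E)) : LaurentSeries (LS (LS E)) := K.JJ 0 g

theorem jj_rel (hR : Corner.JJRELStmt) [CharZero E] (K : Corner n E) (j : ℕ)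
    {g : Poly n (F3 E)} (hg : g ∈ Pool.CUBE.Rel K.P) :
    K.JJ j g = 0 := by
  rw [Pool.CUBE.Rel] at hg
  refine Submodule.iSup_induction _ (motive := fun x => K.JJ j x = 0) hg ?_ ?_ ?_
  · rintro i _ ⟨h', rfl⟩
    exact hR n E K j i h'
  · exact map_zero _
  · intro x y hx hy
    rw [map_add, hx, hy, add_zero]

theorem jj_exp (hR : Corner.JJRELStmt) (hL : Corner.LINStmt) [CharZero E] (K : Corner n E)
    (j : ℕ) {N : Type} [Fintype N] [DecidableEq N] {b : N → Poly n (F3 E)} {l : N → ℕ}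
    {co : Poly n (F3 E) →ₗ[F3 E] (N → F3 E)} (h : IsCo K.P K.D b l co) {g : Poly n (F3 E)}
    (hg : WtD K.D g) : K.JJ j g = ∑ c, ex3 E (co g c) * K.JJ j (b c) := by
  have h1 := jj_rel hR K j (h.span g hg)
  rw [map_sub, sub_eq_zero, map_sum] at h1
  rw [h1]
  exact Finset.sum_congr rfl fun c _ => hL n E K j _ _

variable [CharZero E] (K : Corner n E) {N : Type} [Fintype N] [DecidableEq N]
  {b : N → Poly n (F3 E)} {l : N → ℕ} {co : Poly n (F3 E) →ₗ[F3 E] (N → F3 E)}

theorem row_lam (hR : Corner.JJRELStmt) (hL : Corner.LINStmt) (hN : Corner.JJNLStmt)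
    (hP : K.P.IsHomogeneous K.D) (h : IsCo K.P K.D b l co) :
    op (-((matG (Corner.dLam E) K.P b co).map (kap3 E)).transpose) (row K 0 b) = 0 := by
  funext a
  have h1 := jj_exp hR hL K 0 h (GFL.nab0_WtD (Corner.dLam E) hP (GFL.WtD_of_Wt (h.lb a)))
  rw [hN n E K 0] at h1
  have h2 := opA_neg (kap3 E) (matG (Corner.dLam E) K.P b co)
    (nab (E := LS (LS E))).toAddMonoidHom (row K 0 b) a
  have h3 : (nab (E := LS (LS E))) (row K 0 b a) =
      ∑ c, kap3 E (matG (Corner.dLam E) K.P b co c a) * row K 0 b c := h1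
  change opA (nab (E := LS (LS E))).toAddMonoidHom _ (row K 0 b) a = 0
  rw [h2]
  exact sub_eq_zero.2 h3

theorem row_sig1 (hR : Corner.JJRELStmt) (hL : Corner.LINStmt) (hN : Corner.JJNSStmt)
    (hP : K.P.IsHomogeneous K.D) (h : IsCo K.P K.D b l co) (j : ℕ) :
    opA (cmap (nabS (LS E))) (-((matG (Corner.dSig E) K.P b co).map (kap3 E)).transpose)
      (row K j b) = -((j + 1 : ℕ) • row K (j + 1) b) := by
  funext a
  have h1 := jj_exp hR hL K j h (GFL.nab0_WtD (Corner.dSig E) hP (GFL.WtD_of_Wt (h.lb a)))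
  rw [hN n E K j] at h1
  have h2 := opA_neg (kap3 E) (matG (Corner.dSig E) K.P b co)
    (cmap (nabS (LS E))) (row K j b) a
  have h3 : (cmap (nabS (LS E))) (row K j b a) + ((j + 1 : ℕ) : LaurentSeries (LS (LS E))) *
      row K (j + 1) b a =
      ∑ c, kap3 E (matG (Corner.dSig E) K.P b co c a) * row K j b c := h1
  rw [h2, ← h3, Pi.neg_apply, Pi.smul_apply, nsmul_eq_mul]
  ring

theorem row_sigq (hR : Corner.JJRELStmt) (hL : Corner.LINStmt) (hN : Corner.JJNSStmt)
    (hP : K.P.IsHomogeneous K.D) (h : IsCo K.P K.D b l co) (q : ℕ) : ∀ j, ∃ c : ℤ,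
    ((opA (cmap (nabS (LS E))) (-((matG (Corner.dSig E) K.P b co).map (kap3 E)).transpose)) ^ q)
      (row K j b) = c • row K (j + q) b := by
  induction q with
  | zero =>
    intro j
    refine ⟨1, ?_⟩
    rw [one_smul]
    rfl
  | succ q ih =>
    intro j
    obtain ⟨c, hc⟩ := ih (j + 1)
    refine ⟨-((j + 1 : ℕ) : ℤ) * c, ?_⟩
    rw [pow_succ]
    change ((opA (cmap (nabS (LS E))) (-((matG (Corner.dSig E) K.P b co).map
      (kap3 E)).transpose)) ^ q) (opA (cmap (nabS (LS E)))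
        (-((matG (Corner.dSig E) K.P b co).map (kap3 E)).transpose) (row K j b)) = _
    rw [row_sig1 K hR hL hN hP h j, map_neg, map_nsmul, hc, show j + (q + 1) = j + 1 + q by ring,
      neg_mul, neg_smul, mul_smul, natCast_zsmul]

theorem row_sig (hR : Corner.JJRELStmt) (hL : Corner.LINStmt) (hN : Corner.JJNSStmt)
    (hT : Corner.JJTOPStmt) (hP : K.P.IsHomogeneous K.D) (h : IsCo K.P K.D b l co) :
    ((opA (cmap (nabS (LS E))) (-((matG (Corner.dSig E) K.P b co).map (kap3 E)).transpose)) ^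
      (n + 1)) (row K 0 b) = 0 := by
  obtain ⟨c, hc⟩ := row_sigq K hR hL hN hP h (n + 1) 0
  rw [hc]
  have h1 : row K (0 + (n + 1)) b = 0 := by
    funext a
    exact hT n E K _ _ (by omega)
  rw [h1, smul_zero]

/-- the value of the row on a numerator of level `1` over `E` times a constant -/
theorem row_pos (hR : Corner.JJRELStmt) (hL : Corner.LINStmt) (hV : Corner.JJPOSStmt)
    (h : IsCo K.P K.D b l co) (c : RatFunc E) (W : Poly n E) (hW : Wt K.D W) :
    HahnSeries.coeff (Γ := ℤ) (R := LS E) ((∑ a, row K 0 b a * kap3 E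
      (RatFunc.C (RatFunc.C c) * co (MvPolynomial.map (Corner.cF E) W) a)).coeff 0) (-1) = 0 := by
  classical
  have hWD : WtD K.D (MvPolynomial.map (Corner.cF E) W) := by
    intro a ha
    refine ⟨1, ?_⟩
    rw [mul_one]
    refine hW a ?_
    intro h0
    apply ha
    rw [MvPolynomial.coeff_map, h0, map_zero]
  have h1 := jj_exp hR hL K 0 h hWD
  have h2 : (∑ a, row K 0 b a * kap3 E
      (RatFunc.C (RatFunc.C c) * co (MvPolynomial.map (Corner.cF E) W) a)) =
      kap3 E (RatFunc.C (RatFunc.C c)) * jjv K (MvPolynomial.map (Corner.cF E) W) := by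
    have h1' : jjv K (MvPolynomial.map (Corner.cF E) W) = ∑ a, kap3 E
      (co (MvPolynomial.map (Corner.cF E) W) a) * row K 0 b a := h1
    rw [h1', Finset.mul_sum]
    refine Finset.sum_congr rfl fun a _ => ?_
    rw [map_mul]
    ring
  have h4 : K.JJ 0 (MvPolynomial.map (Corner.cF E) W) =
      ∑ a ∈ (MvPolynomial.map (Corner.cF E) W).support,
        ex3 E ((MvPolynomial.map (Corner.cF E) W).coeff a) * K.del 0 a := rfl
  have h5 : ∀ x : E, ex3 E (Corner.cF E x) = HahnSeries.C (HahnSeries.C (HahnSeries.C x)) := by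
    intro x
    rw [ex3, Corner.cF, RingHom.comp_apply, RingHom.comp_apply, RingHom.comp_apply, ex_CC, cmapR_C,
      RingHom.comp_apply, ex_CC, cmapR_C, ex_CC]
  have h6 : ((K.JJ 0 (MvPolynomial.map (Corner.cF E) W)).coeff 0).coeff (-1) = 0 := by
    rw [h4, HahnSeries.coeff_sum, HahnSeries.coeff_sum]
    refine Finset.sum_eq_zero fun a ha => ?_
    have ha' : a.degree + (n + 1) = K.D := by
      refine hW a ?_
      intro h0
      rw [MvPolynomial.mem_support_iff, MvPolynomial.coeff_map, h0, map_zero] at ha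
      exact ha rfl
    rw [MvPolynomial.coeff_map, h5, HahnSeries.C_mul_eq_smul, HahnSeries.coeff_smul, smul_eq_mul,
      HahnSeries.C_mul_eq_smul, HahnSeries.coeff_smul, (hV n E K 0 a ha').2 (-1) (by norm_num),
      smul_zero]
  have h8 : HahnSeries.coeff (Γ := ℤ) (R := LS E)
      ((jjv K (MvPolynomial.map (Corner.cF E) W)).coeff 0) (-1) = 0 := h6
  rw [h2, kap3_C, coeff_Cmul, coeff_lsC, h8, mul_zero]

end rows

/-! ### the theorem -/

/-- Frobenius compatibility of the corner functional (block JJ). -/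
def JMCStmt : Prop := ∀ (X : Idx) (E : Type) [Field E] [CharZero E] (A : PF X E) (hA : A.Ax)
  (n : ℕ) (K : Corner n E) (N : Type) [Fintype N] [DecidableEq N] (b : N → Poly n (F3 E))
  (l : N → ℕ) (co : Poly n (F3 E) →ₗ[F3 E] (N → F3 E)), IsCo K.P K.D b l co →
  (∀ j, b j = eP K.D n K.P ∨ ∃ a, b j = MvPolynomial.monomial a 1) → ∀ M, 1 ≤ M → ∃ C,
  ∀ C3 : ℕ, X.Ev fun i => FUN.MC ((ls (ls (FUN.TG.base A hA))).lau All.xph) i n M
    ((C3 : ℤ) * X.p i) (C * X.p i) (row K 0 b)
    (matB (X.p i) K.D M (A.ext.ext.ext.phi i) K.P b co).transpose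

/-- the facts on the corner functional -/
structure JJFacts : Prop where
  rel : Corner.JJRELStmt
  lin : Corner.LINStmt
  nl : Corner.JJNLStmt
  ns : Corner.JJNSStmt
  top : Corner.JJTOPStmt
  pos : Corner.JJPOSStmt
  e : Corner.JJEStmt
  mc : JMCStmt

/-- **T2.** -/
theorem t2c (hJJ : JJFacts) (hF : FunStmt) {X : Idx} {E : Type} [Field E] [CharZero E]
    (A : PF X E) (hA : A.Ax) (hJ : Finite A.J) {n : ℕ} (K : Corner n E)
    (hP : K.P.IsHomogeneous K.D) {N : Type} [Fintype N] [DecidableEq N]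
    (b : Option N → Poly n (F3 E)) (l : Option N → ℕ)
    (co : Poly n (F3 E) →ₗ[F3 E] (Option N → F3 E)) (hb0 : b none = eP K.D n K.P)
    (hb1 : ∀ a, ∃ c, b (some a) = MvPolynomial.monomial c 1) (hco : IsCo K.P K.D b l co)
    (hPkg : Pkg A.ext.ext.ext (fun j => matG (A.ext.ext.ext.D j) K.P b co)
      (fun a => if a = none then 1 else 0) none n)
    (hFr : ∀ M M', M + 2 * n + 1 ≤ M' → ∃ C, X.Ev fun i =>
      ∃ Phi : Matrix (Option N) (Option N) (F3 E),
        Frob A.ext.ext.ext (fun j => matG (A.ext.ext.ext.D j) K.P b co)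
          (fun a => if a = none then 1 else 0) none n i M C Phi
          (matB (X.p i) K.D M' (A.ext.ext.ext.phi i) K.P b co).transpose)
    {u1 : Type} [Fintype u1] [DecidableEq u1] {e1 : u1}
    (d1 : LD A.ext.ext (fun j => matG (A.ext.ext.ext.D j) K.P b co) none u1 e1)
    {u2 : Type} [Fintype u2] [DecidableEq u2] {e2 : u2} (d2 : LD A.ext d1.G' e1 u2 e2)
    (c : RatFunc E) (W : Poly n E) (hW : Wt K.D W) :
    Pool.CM.EG.val2 d1.toLD0 d2.toLD0 (fun a => if a = none then 1 else 0)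
      (fun a => Corner.sigF E * (RatFunc.C (RatFunc.C c) *
        co (MvPolynomial.map (Corner.cF E) W) a)) = 0 := by
  classical
  have hA1 : A.ext.Ax := All.ext X E A hA
  have hA2 : A.ext.ext.Ax := All.ext X _ A.ext hA1
  have hA3 : A.ext.ext.ext.Ax := All.ext X _ A.ext.ext hA2
  have hb : ∀ j, b j = eP K.D n K.P ∨ ∃ a, b j = MvPolynomial.monomial a 1 := by
    intro j
    cases j with
    | none => exact Or.inl hb0
    | some a => exact Or.inr (hb1 a)
  have hC : Comp ((ls (ls (FUN.TG.base A hA))).lau All.xph) (A := A.ext.ext.ext)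
      (fun j => matG (A.ext.ext.ext.D j) K.P b co) (fun a => if a = none then 1 else 0) none n
      (row K 0 b) := by
    intro M
    obtain ⟨C1, hC1⟩ := hFr M (M + 2 * n + 1) le_rfl
    obtain ⟨C2, hC2⟩ := hJJ.mc X E A hA n K (Option N) b l co hco hb (M + 2 * n + 1) (by omega)
    refine ⟨C1 + C2, fun C3 => (hC1.and (hC2 C3)).mono ?_⟩
    rintro i ⟨⟨Phi, h1⟩, h2⟩
    refine ⟨Phi, _, frob_mono hA3 h1 (Nat.le_add_right _ _), ?_⟩
    exact mc_mono hA3 h2 (by omega) le_rfl (Nat.mul_le_mul_right _ (Nat.le_add_left _ _))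
  have key := t2 hF A hA hJ (fun j => matG (A.ext.ext.ext.D j) K.P b co)
    (fun a => if a = none then 1 else 0) none n (n + 1) hPkg (row K 0 b)
    (row_lam K hJJ.rel hJJ.lin hJJ.nl hP hco) (row_sig K hJJ.rel hJJ.lin hJJ.ns hJJ.top hP hco)
    (by
      change K.JJ 0 (b none) = 1
      rw [hb0, hJJ.e n E K 0, if_pos rfl])
    hC d1 d2 (fun a => RatFunc.C (RatFunc.C c) * co (MvPolynomial.map (Corner.cF E) W) a)
    (row_pos K hJJ.rel hJJ.lin hJJ.pos hco c W hW)
  unfold Pool.CM.EG.val2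
  have h1 : Pool.CM.EG.hvL d1.toLD0 (fun a => Corner.sigF E * (RatFunc.C (RatFunc.C c) *
        co (MvPolynomial.map (Corner.cF E) W) a)) = fun a => RatFunc.X * hv d1.Z' (fun a =>
          RatFunc.C (RatFunc.C c) * co (MvPolynomial.map (Corner.cF E) W) a) a := by
    funext x
    rw [Pool.CM.EG.hvL_apply]
    have h2 : (∑ a, d1.toLD0.Z' a x * ex _ (Corner.sigF E * (RatFunc.C (RatFunc.C c) *
        co (MvPolynomial.map (Corner.cF E) W) a))) =
        HahnSeries.C (RatFunc.X : RatFunc (RatFunc E)) * ∑ a, d1.Z' a x * ex _ (RatFunc.C (RatFunc.C c) *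
          co (MvPolynomial.map (Corner.cF E) W) a) := by
      rw [Finset.mul_sum]
      refine Finset.sum_congr rfl fun a _ => ?_
      rw [map_mul (ex (RatFunc (RatFunc E))) (Corner.sigF E), Corner.sigF, ex_CC]
      ring
    rw [h2, coeff_Cmul]
    rfl
  rw [h1]
  exact key

end Pool.CM.T2
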