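import Pool.Agent.H10.CM.All
import Pool.Agent.H93.CUBE.LDefs
import Pool.Agent.H91.CUBE.FunLim

set_option autoImplicit false

/-!
# MP_47888e_al, cube project, T2 wiring: definitions

* `LS K` : Laurent series over a field `K` as a new type, `ls T` test groups on it;
* `Comp T G chi e n δ` : the row `δ` is compatible with the Frobenius structures of `(G, chi, e)`;
* `FunStmt` : the limit of a package is a package, and compatible rows pass to the limit.
-/

open Polynomial

namespace Pool.CM.T2

open Pool.CM Pool.H93.Cube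

variable {X : Idx} {E : Type} [Field E]

/-- the new derivation of `E(x)` -/
def jn (A : PF X E) : A.ext.J := (none : Option A.J)

/-- Laurent series over a field, as a new type (so that towers have only one zero). -/
def LS (K : Type) [Field K] : Type := LaurentSeries K

noncomputable instance (K : Type) [Field K] : Field (LS K) :=
  inferInstanceAs (Field (LaurentSeries K))

/-- the test groups on `LS K` -/
noncomputable def ls {A : PF X E} {K : Type} [Field K] (T : FUN.TG A K) : FUN.TG A.ext (LS K) :=
  T.lau All.xph

theorem ls_Rg {A : PF X E} {K : Type} [Field K] (T : FUN.TG A K) (hT : T.Rg) :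
    (ls T).Rg := FUN.lau_Rg T All.xph hT

/-- `κ` on the coefficients of the expansion -/
noncomputable def kap {E K : Type} [Field E] [Field K] (κ : E →+* K) : RatFunc E →+* LS K :=
  (cmapR κ).comp (ex E)

/-- `x d/dx` on `LS K` -/
noncomputable def nabS (K : Type) [Field K] : LS K →+ LS K :=
  (nab : LaurentSeries K →ₗ[K] LaurentSeries K).toAddMonoidHom

theorem nabS_mul (K : Type) [Field K] (x y : LS K) :
    nabS K (x * y) = nabS K x * y + x * nabS K y := nab_mul (E := K) x y

theorem nabS_kap {A : PF X E} {K : Type} [Field K] (κ : E →+* K) (x : RatFunc E) :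
    nabS K (kap κ x) = kap κ (A.ext.D (jn A) x) := by
  apply HahnSeries.ext
  funext k
  have h : (ex E (A.ext.D (jn A) x)).coeff k = (k : E) * (ex E x).coeff k :=
    (All.xde X E A x k).1
  change (nab (cmapR κ (ex E x))).coeff k = (cmapR κ (ex E (A.ext.D (jn A) x))).coeff k
  rw [nab_coeff, cmapR_coeff, cmapR_coeff, h, map_mul, map_intCast]

/-- The row `δ` is compatible with the Frobenius structures of the package `(G, chi, e)`. -/
def Comp {A : PF X E} {K : Type} [CommRing K] (T : FUN.TG A K) {m : Type} [Fintype m]
    [DecidableEq m] (G : A.J → Matrix m m E) (chi : m → E) (e : m) (n : ℕ) (δ : m → K) : Prop :=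
  ∀ M, ∃ C, ∀ C3 : ℕ, X.Ev fun i => ∃ Phi Phi' : Matrix m m E,
    Frob A G chi e n i M C Phi Phi' ∧ FUN.MC T i n M ((C3 : ℤ) * X.p i) (C * X.p i) δ Phi'

/-- The limit of a package is a package; compatible rows pass to the limit. -/
def FunStmt : Prop := ∀ (X : Idx) (E : Type) [Field E] (A : PF X E), A.Ax → Finite A.J →
  ∀ (m : Type) [Fintype m] [DecidableEq m] (G : Option A.J → Matrix m m (RatFunc E))
    (chi : m → RatFunc E) (e : m) (n : ℕ), Pkg A.ext G chi e n →
  ∀ (u : Type) [Fintype u] [DecidableEq u] (e' : u) (d : LD A G e u e'),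
    Pkg A d.G' (d.chi' chi) e' n ∧
    ∀ (K : Type) [CommRing K] (T : FUN.TG A K), T.Rg → ∀ (x : u → K)
      (δ : m → LaurentSeries K),
      (∀ a, δ a = ∑ b, FUN.mapL T.ι (d.Z' a b) * HahnSeries.C (x b)) →
      Comp (T.lau All.xph) (A := A.ext) G chi e n δ → Comp T d.G' (d.chi' chi) e' n x

end Pool.CM.T2
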